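import Pool.Agent.Work.MP_80ff4e_al.Interface

/-!
Block D2.
-/

set_option autoImplicit false

namespace PCF

open scoped commutatorElement

namespace D2

variable {G : Type} [Group G]

/-- finite covers give finite relative index -/
lemma relIndex_ne_zero_of_cover {H' H : Subgroup G} (T : Set G) (hT : T.Finite)
    (h : ∀ x ∈ H, ∃ t ∈ T, t⁻¹ * x ∈ H') : H'.relIndex H ≠ 0 := by
  let F : H ⧸ H'.subgroupOf H → G ⧸ H' := Quotient.map' (fun x : H => (x : G)) (by
    intro a b hab
    rw [QuotientGroup.leftRel_apply] at hab ⊢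
    exact hab)
  have hF : Function.Injective F := by
    intro a b hab
    obtain ⟨a, rfl⟩ := QuotientGroup.mk_surjective a
    obtain ⟨b, rfl⟩ := QuotientGroup.mk_surjective b
    have : ((a : G) : G ⧸ H') = ((b : G) : G ⧸ H') := hab
    rw [QuotientGroup.eq] at this
    rw [QuotientGroup.eq]
    exact this
  have hr : Set.range F ⊆ (fun t : G => (t : G ⧸ H')) '' T := by
    rintro _ ⟨a, rfl⟩
    obtain ⟨a, rfl⟩ := QuotientGroup.mk_surjective a
    obtain ⟨t, ht, h1⟩ := h a a.2
    refine ⟨t, ht, ?_⟩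
    show ((t : G) : G ⧸ H') = ((a : G) : G ⧸ H')
    rw [QuotientGroup.eq]
    exact h1
  have hfin : (Set.range F).Finite := (hT.image _).subset hr
  have : Finite (H ⧸ H'.subgroupOf H) := by
    have : Finite (Set.range F) := hfin
    exact Finite.of_injective (Set.rangeFactorization F) (by
      intro a b hab
      exact hF (congrArg Subtype.val hab))
  exact (Subgroup.finiteIndex_of_finite_quotient (H := H'.subgroupOf H)).index_ne_zero

/-- finite relative index gives a finite cover -/
lemma exists_cover {H' H : Subgroup G} (h : H'.relIndex H ≠ 0) :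
    ∃ T : Set G, T.Finite ∧ T ⊆ H ∧ ∀ x ∈ H, ∃ t ∈ T, t⁻¹ * x ∈ H' := by
  have : (H'.subgroupOf H).FiniteIndex := ⟨h⟩
  have : Finite (H ⧸ H'.subgroupOf H) := Subgroup.finite_quotient_of_finiteIndex
  refine ⟨Set.range (fun q : H ⧸ H'.subgroupOf H => ((Quotient.out q : H) : G)), Set.finite_range _,
    ?_, ?_⟩
  · rintro _ ⟨q, rfl⟩
    exact (Quotient.out q : H).2
  · intro x hx
    refine ⟨_, ⟨(QuotientGroup.mk (⟨x, hx⟩ : H)), rfl⟩, ?_⟩
    have h1 : (QuotientGroup.mk (Quotient.out (QuotientGroup.mk (⟨x, hx⟩ : H) : H ⧸ H'.subgroupOf H)) :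
      H ⧸ H'.subgroupOf H) = QuotientGroup.mk (⟨x, hx⟩ : H) := Quotient.out_eq' _
    rw [QuotientGroup.eq] at h1
    exact h1

/-- extension step: `B` is normalised by `H` -/
lemma ext_step {H' H B : Subgroup G} (hH : H' ≤ H) (hB : ∀ x ∈ H, ∀ b ∈ B, x * b * x⁻¹ ∈ B)
    (h1 : (H' ⊓ B).relIndex (H ⊓ B) ≠ 0) (h2 : (H' ⊔ B).relIndex H ≠ 0) : H'.relIndex H ≠ 0 := by
  obtain ⟨T1, f1, s1, c1⟩ := exists_cover h1
  -- elements of `H' ⊔ B` are products
  have hprod : ∀ x ∈ H' ⊔ B, ∃ h ∈ H', ∃ b ∈ B, x = b * h := by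
    intro x hx
    rw [Subgroup.sup_eq_closure] at hx
    induction hx using Subgroup.closure_induction with
    | mem x hx =>
      rcases hx with hx | hx
      · exact ⟨x, hx, 1, B.one_mem, by simp⟩
      · exact ⟨1, H'.one_mem, x, hx, by simp⟩
    | one => exact ⟨1, H'.one_mem, 1, B.one_mem, by simp⟩
    | mul x y _ _ hx hy =>
      obtain ⟨h, hh, b, hb, rfl⟩ := hx
      obtain ⟨k, hk, c, hc, rfl⟩ := hy
      exact ⟨h * k, H'.mul_mem hh hk, b * (h * c * h⁻¹), B.mul_mem hb (hB h (hH hh) c hc), by group⟩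
    | inv x _ hx =>
      obtain ⟨h, hh, b, hb, rfl⟩ := hx
      refine ⟨h⁻¹, H'.inv_mem hh, h⁻¹ * b⁻¹ * h, ?_, by group⟩
      have := hB h⁻¹ (H.inv_mem (hH hh)) b⁻¹ (B.inv_mem hb)
      simpa using this
  -- index in `(H' ⊔ B) ⊓ H`
  have h3 : H'.relIndex ((H' ⊔ B) ⊓ H) ≠ 0 := by
    apply relIndex_ne_zero_of_cover T1 f1
    rintro x ⟨hx1, hx2⟩
    obtain ⟨h, hh, b, hb, rfl⟩ := hprod x hx1
    have hbH : b ∈ H := by
      have := H.mul_mem hx2 (H.inv_mem (hH hh))
      simpa using this
    obtain ⟨t, ht, h4⟩ := c1 b ⟨hbH, hb⟩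
    refine ⟨t, ht, ?_⟩
    rw [← mul_assoc]
    exact H'.mul_mem h4.1 hh
  have h4 : ((H' ⊔ B) ⊓ H).relIndex H ≠ 0 := by
    rw [Subgroup.inf_relIndex_right]
    exact h2
  exact Subgroup.relIndex_ne_zero_trans h3 h4

/-- all descending chains, cut with `B`, are eventually of finite index -/
def PP (B : Subgroup G) : Prop := ∀ H : ℕ → Subgroup G, Antitone H →
  ∃ k₀, ∀ k ≥ k₀, (H (k + 1) ⊓ B).relIndex (H k ⊓ B) ≠ 0

lemma PP_bot : PP (⊥ : Subgroup G) := by
  intro H _
  refine ⟨0, fun k _ => ?_⟩
  rw [inf_bot_eq, inf_bot_eq, Subgroup.relIndex_bot_right]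
  exact one_ne_zero

lemma PP_finite {B : Subgroup G} [hn : B.Normal] [hf : B.FiniteIndex] (hB : PP B) (H : ℕ → Subgroup G)
    (hH : Antitone H) : ∃ k₀, ∀ k ≥ k₀, (H (k + 1)).relIndex (H k) ≠ 0 := by
  obtain ⟨k₀, h⟩ := hB H hH
  refine ⟨k₀, fun k hk => ext_step (hH (Nat.le_succ k)) (fun x _ b hb => hn.conj_mem b hb x) (h k hk) ?_⟩
  intro h0
  have h1 : (H (k + 1) ⊔ B).relIndex ⊤ = 0 := Subgroup.relIndex_eq_zero_of_le_right le_top h0
  rw [Subgroup.relIndex_top_right] at h1
  have h2 : B.index = 0 := Nat.eq_zero_of_zero_dvd (h1 ▸ Subgroup.index_dvd_of_le le_sup_right)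
  exact hf.index_ne_zero h2

lemma mem_sup_zpowers {B : Subgroup G} {c : G} (hc : ∀ b ∈ B, c * b * c⁻¹ ∈ B)
    (hc' : ∀ b ∈ B, c⁻¹ * b * c ∈ B) {x : G} (hx : x ∈ B ⊔ Subgroup.zpowers c) :
    ∃ n : ℤ, ∃ b ∈ B, x = c ^ n * b := by
  have hz : ∀ n : ℤ, ∀ b ∈ B, c ^ n * b * (c ^ n)⁻¹ ∈ B := by
    intro n
    induction n with
    | zero => intro b hb; simpa using hb
    | succ n ih =>
      intro b hb
      have := ih _ (hc b hb)
      rw [zpow_add_one]
      simpa [mul_assoc] using this
    | pred n ih =>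
      intro b hb
      have := ih _ (hc' b hb)
      rw [zpow_sub_one]
      simpa [mul_assoc] using this
  rw [Subgroup.sup_eq_closure] at hx
  induction hx using Subgroup.closure_induction with
  | mem x hx =>
    rcases hx with hx | hx
    · exact ⟨0, x, hx, by simp⟩
    · obtain ⟨n, rfl⟩ := hx
      exact ⟨n, 1, B.one_mem, by simp⟩
  | one => exact ⟨0, 1, B.one_mem, by simp⟩
  | mul x y _ _ hx hy =>
    obtain ⟨n, b, hb, rfl⟩ := hx
    obtain ⟨m, b', hb', rfl⟩ := hy
    refine ⟨n + m, (c ^ (-m) * b * (c ^ (-m))⁻¹) * b', B.mul_mem (hz _ b hb) hb', ?_⟩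
    rw [zpow_add, zpow_neg]
    group
  | inv x _ hx =>
    obtain ⟨n, b, hb, rfl⟩ := hx
    refine ⟨-n, c ^ n * b⁻¹ * (c ^ n)⁻¹, hz n _ (B.inv_mem hb), ?_⟩
    rw [zpow_neg]
    group

lemma PP_cyclic {B : Subgroup G} (hB : PP B) {c : G} (hc : ∀ b ∈ B, c * b * c⁻¹ ∈ B)
    (hc' : ∀ b ∈ B, c⁻¹ * b * c ∈ B) : PP (B ⊔ Subgroup.zpowers c) := by
  intro H hH
  set C := B ⊔ Subgroup.zpowers c with hC
  have hBC : B ≤ C := le_sup_left
  have hcC : c ∈ C := (le_sup_right : Subgroup.zpowers c ≤ C) (Subgroup.mem_zpowers c)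
  -- `B` is normalised by `C`
  have hnorm : ∀ x ∈ C, ∀ b ∈ B, x * b * x⁻¹ ∈ B := by
    intro x hx
    rw [hC, Subgroup.sup_eq_closure] at hx
    induction hx using Subgroup.closure_induction'' with
    | mem x hx =>
      rcases hx with hx | hx
      · exact fun b hb => B.mul_mem (B.mul_mem hx hb) (B.inv_mem hx)
      · obtain ⟨n, rfl⟩ := hx
        dsimp only
        induction n with
        | zero => intro b hb; simpa using hb
        | succ n ih =>
          intro b hb
          have := ih _ (hc b hb)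
          rw [zpow_add_one]
          simpa [mul_assoc] using this
        | pred n ih =>
          intro b hb
          have := ih _ (hc' b hb)
          rw [zpow_sub_one]
          simpa [mul_assoc] using this
    | inv_mem x hx =>
      rcases hx with hx | hx
      · exact fun b hb => B.mul_mem (B.mul_mem (B.inv_mem hx) hb) (B.inv_mem (B.inv_mem hx))
      · obtain ⟨n, rfl⟩ := hx
        dsimp only
        rw [← zpow_neg]
        generalize -n = m
        induction m with
        | zero => intro b hb; simpa using hb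
        | succ n ih =>
          intro b hb
          have := ih _ (hc b hb)
          rw [zpow_add_one]
          simpa [mul_assoc] using this
        | pred n ih =>
          intro b hb
          have := ih _ (hc' b hb)
          rw [zpow_sub_one]
          simpa [mul_assoc] using this
    | one => intro b hb; simpa using hb
    | mul x y _ _ hx hy =>
      intro b hb
      have := hx _ (hy b hb)
      simpa [mul_assoc] using this
  obtain ⟨k₀, h0⟩ := hB H hH
  by_cases hcase : ∃ k, H k ⊓ C ≤ B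
  · obtain ⟨k₁, hk₁⟩ := hcase
    refine ⟨max k₀ k₁, fun k hk => ?_⟩
    have e : ∀ j ≥ k₁, H j ⊓ C = H j ⊓ B := by
      intro j hj
      apply le_antisymm
      · exact le_inf inf_le_left ((inf_le_inf_right C (hH hj)).trans hk₁)
      · exact inf_le_inf_left _ hBC
    rw [e _ (by omega), e _ (by omega)]
    exact h0 k (by omega)
  · push Not at hcase
    refine ⟨k₀, fun k hk => ?_⟩
    apply ext_step (B := B) (inf_le_inf_right C (hH (Nat.le_succ k)))
    · exact fun x hx b hb => hnorm x hx.2 b hb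
    · rw [inf_assoc, inf_assoc, inf_eq_right.2 hBC]
      exact h0 k hk
    · -- the image in the cyclic quotient has finite index
      obtain ⟨x, hx, hxB⟩ := SetLike.not_le_iff_exists.1 (hcase (k + 1))
      obtain ⟨n, b, hb, hxe⟩ := mem_sup_zpowers hc hc' hx.2
      have hn : n ≠ 0 := by
        rintro rfl
        apply hxB
        rw [hxe]
        simpa using hb
      set M := H (k + 1) ⊓ C ⊔ B with hM
      have hcn : c ^ n ∈ M := by
        have : c ^ n = x * b⁻¹ := by rw [hxe]; group
        rw [this]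
        exact M.mul_mem ((le_sup_left : H (k + 1) ⊓ C ≤ M) hx) ((le_sup_right : B ≤ M) (B.inv_mem hb))
      have hfin : M.relIndex C ≠ 0 := by
        apply relIndex_ne_zero_of_cover ((fun j : ℕ => c ^ j) '' (Set.Iio n.natAbs))
          ((Set.finite_Iio _).image _)
        intro y hy
        obtain ⟨m, b', hb', rfl⟩ := mem_sup_zpowers hc hc' hy
        have hpos : 0 ≤ m % n := Int.emod_nonneg m hn
        have hlt : m % n < |n| := Int.emod_lt_abs m hn
        refine ⟨c ^ (m % n).toNat, ⟨(m % n).toNat, ?_, rfl⟩, ?_⟩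
        · show (m % n).toNat < n.natAbs
          rw [Int.abs_eq_natAbs] at hlt
          omega
        · rw [← zpow_natCast, Int.toNat_of_nonneg hpos, ← zpow_neg, ← mul_assoc, ← zpow_add]
          have : -(m % n) + m = n * (m / n) := by
            have := Int.emod_add_mul_ediv m n
            linarith
          rw [this, zpow_mul]
          exact M.mul_mem (M.zpow_mem hcn _) ((le_sup_right : B ≤ M) hb')
      intro h5
      exact hfin (Subgroup.relIndex_eq_zero_of_le_right inf_le_right h5)

lemma gam_conj (J : Subgroup G) (i : ℕ) : ∀ y ∈ J, ∀ x ∈ gam J i, y * x * y⁻¹ ∈ gam J i := by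
  induction i with
  | zero => exact fun y hy x hx => J.mul_mem (J.mul_mem hy hx) (J.inv_mem hy)
  | succ i ih =>
    intro y hy x hx
    have h1 : (gam J (i + 1)).map (MulAut.conj y).toMonoidHom ≤ gam J (i + 1) := by
      show (⁅gam J i, J⁆ : Subgroup G).map _ ≤ ⁅gam J i, J⁆
      rw [Subgroup.map_commutator]
      apply Subgroup.commutator_mono
      · rintro _ ⟨z, hz, rfl⟩
        exact ih y hy z hz
      · rintro _ ⟨z, hz, rfl⟩
        exact J.mul_mem (J.mul_mem hy hz) (J.inv_mem hy)
    exact h1 ⟨x, hx, rfl⟩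

lemma gam_succ_le (J : Subgroup G) (i : ℕ) : gam J (i + 1) ≤ gam J i := by
  show ⁅gam J i, J⁆ ≤ gam J i
  rw [Subgroup.commutator_le]
  intro x hx y hy
  rw [commutatorElement_def, mul_assoc, mul_assoc, ← mul_assoc y]
  exact (gam J i).mul_mem hx (gam_conj J i y hy _ ((gam J i).inv_mem hx))

lemma gam_le (J : Subgroup G) (i : ℕ) : gam J i ≤ J := by
  induction i with
  | zero => exact le_rfl
  | succ i ih => exact (gam_succ_le J i).trans ih

lemma comm_mem_gam {J : Subgroup G} {i : ℕ} {x y : G} (hx : x ∈ gam J i) (hy : y ∈ J) :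
    ⁅x, y⁆ ∈ gam J (i + 1) := Subgroup.commutator_mem_commutator hx hy

/-- the lower central factors of a finitely generated group are finitely generated -/
lemma gam_fg (J : Subgroup G) (hJ : J.FG) (i : ℕ) : ∃ S : Finset G,
    (∀ s ∈ S, s ∈ gam J i) ∧ gam J i ≤ Subgroup.closure (S : Set G) ⊔ gam J (i + 1) := by
  classical
  induction i with
  | zero =>
    obtain ⟨S, hS⟩ := hJ
    refine ⟨S, fun s hs => ?_, ?_⟩
    · show s ∈ J
      rw [← hS]
      exact Subgroup.subset_closure hs
    · show J ≤ _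
      rw [hS]
      exact le_sup_left
  | succ i ih =>
    obtain ⟨S, hS, hgen⟩ := ih
    obtain ⟨S0, hS0⟩ := hJ
    have hS0' : ∀ s ∈ S0, s ∈ J := fun s hs => by rw [← hS0]; exact Subgroup.subset_closure hs
    let S' : Finset G := (S ×ˢ S0).image (fun p => ⁅p.1, p.2⁆)
    set L := Subgroup.closure (S' : Set G) ⊔ gam J (i + 2) with hL
    have hgL : gam J (i + 2) ≤ L := le_sup_right
    -- conjugation of elements of `L` in `gam J (i+1)`
    have hconj : ∀ z ∈ gam J (i + 1), z ∈ L → ∀ y ∈ J, y * z * y⁻¹ ∈ L := by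
      intro z hz hzL y hy
      have e : y * z * y⁻¹ = ⁅z, y⁆⁻¹ * z := by
        rw [commutatorElement_inv, commutatorElement_def]; group
      rw [e]
      exact L.mul_mem (L.inv_mem (hgL (comm_mem_gam hz hy))) hzL
    have hconj' : ∀ z ∈ gam J (i + 1), z ∈ L → ∀ y ∈ J, y⁻¹ * z * y ∈ L := by
      intro z hz hzL y hy
      have := hconj z hz hzL y⁻¹ (J.inv_mem hy)
      simpa using this
    have hA : ∀ s ∈ S, ∀ y ∈ J, ⁅s, y⁆ ∈ L := by
      intro s hs y hy
      have hsg := hS s hs
      rw [← hS0] at hy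
      have : y ∈ J ∧ ⁅s, y⁆ ∈ L := by
        induction hy using Subgroup.closure_induction with
        | mem y hy =>
          refine ⟨hS0' y hy, (le_sup_left : Subgroup.closure (S' : Set G) ≤ L) (Subgroup.subset_closure ?_)⟩
          rw [Finset.mem_coe, Finset.mem_image]
          exact ⟨(s, y), Finset.mem_product.2 ⟨hs, hy⟩, rfl⟩
        | one => exact ⟨J.one_mem, by simp⟩
        | mul a b _ _ ha hb =>
          refine ⟨J.mul_mem ha.1 hb.1, ?_⟩
          have e : ⁅s, a * b⁆ = ⁅s, a⁆ * (a * ⁅s, b⁆ * a⁻¹) := by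
            simp only [commutatorElement_def]; group
          rw [e]
          exact L.mul_mem ha.2 (hconj _ (comm_mem_gam hsg hb.1) hb.2 a ha.1)
        | inv a _ ha =>
          refine ⟨J.inv_mem ha.1, ?_⟩
          have e : ⁅s, a⁻¹⁆ = a⁻¹ * ⁅s, a⁆⁻¹ * a := by
            simp only [commutatorElement_def]; group
          rw [e]
          exact hconj' _ ((gam J (i + 1)).inv_mem (comm_mem_gam hsg ha.1)) (L.inv_mem ha.2) a ha.1
      exact this.2
    refine ⟨S', ?_, ?_⟩
    · intro s hs
      rw [Finset.mem_image] at hs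
      obtain ⟨⟨a, b⟩, hab, rfl⟩ := hs
      rw [Finset.mem_product] at hab
      exact comm_mem_gam (hS a hab.1) (hS0' b hab.2)
    · show ⁅gam J i, J⁆ ≤ L
      rw [Subgroup.commutator_le]
      intro x hx y hy
      have hx' := hgen hx
      rw [Subgroup.sup_eq_closure] at hx'
      have : x ∈ gam J i ∧ ⁅x, y⁆ ∈ L := by
        clear hx
        induction hx' using Subgroup.closure_induction with
        | mem x hx =>
          rcases hx with hx | hx
          · have hcl : Subgroup.closure (S : Set G) ≤ gam J i := (Subgroup.closure_le _).2 hS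
            refine ⟨hcl hx, ?_⟩
            have : x ∈ gam J i ∧ ⁅x, y⁆ ∈ L := by
              have hx2 : x ∈ Subgroup.closure (S : Set G) := hx
              clear hx
              induction hx2 using Subgroup.closure_induction with
              | mem x hx => exact ⟨hS x hx, hA x hx y hy⟩
              | one => exact ⟨(gam J i).one_mem, by simp⟩
              | mul a b _ _ ha hb =>
                refine ⟨(gam J i).mul_mem ha.1 hb.1, ?_⟩
                have e : ⁅a * b, y⁆ = (a * ⁅b, y⁆ * a⁻¹) * ⁅a, y⁆ := by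
                  simp only [commutatorElement_def]; group
                rw [e]
                exact L.mul_mem (hconj _ (comm_mem_gam hb.1 hy) hb.2 a (gam_le J i ha.1)) ha.2
              | inv a _ ha =>
                refine ⟨(gam J i).inv_mem ha.1, ?_⟩
                have e : ⁅a⁻¹, y⁆ = a⁻¹ * ⁅a, y⁆⁻¹ * a := by
                  simp only [commutatorElement_def]; group
                rw [e]
                exact hconj' _ ((gam J (i + 1)).inv_mem (comm_mem_gam ha.1 hy)) (L.inv_mem ha.2) a
                  (gam_le J i ha.1)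
            exact this.2
          · exact ⟨gam_succ_le J i hx, hgL (comm_mem_gam hx hy)⟩
        | one => exact ⟨(gam J i).one_mem, by simp⟩
        | mul a b _ _ ha hb =>
          refine ⟨(gam J i).mul_mem ha.1 hb.1, ?_⟩
          have e : ⁅a * b, y⁆ = (a * ⁅b, y⁆ * a⁻¹) * ⁅a, y⁆ := by
            simp only [commutatorElement_def]; group
          rw [e]
          exact L.mul_mem (hconj _ (comm_mem_gam hb.1 hy) hb.2 a (gam_le J i ha.1)) ha.2
        | inv a _ ha =>
          refine ⟨(gam J i).inv_mem ha.1, ?_⟩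
          have e : ⁅a⁻¹, y⁆ = a⁻¹ * ⁅a, y⁆⁻¹ * a := by
            simp only [commutatorElement_def]; group
          rw [e]
          exact hconj' _ ((gam J (i + 1)).inv_mem (comm_mem_gam ha.1 hy)) (L.inv_mem ha.2) a
            (gam_le J i ha.1)
      exact this.2

lemma PP_add {J : Subgroup G} {i : ℕ} (S : Finset G) (hS : ∀ s ∈ S, s ∈ gam J i)
    (hP : PP (gam J (i + 1))) : PP (gam J (i + 1) ⊔ Subgroup.closure (S : Set G)) := by
  classical
  induction S using Finset.induction_on with
  | empty => simpa using hP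
  | insert s S hs ih =>
    have hD := ih (fun t ht => hS t (Finset.mem_insert_of_mem ht))
    set D := gam J (i + 1) ⊔ Subgroup.closure (S : Set G) with hDdef
    have hsg := hS s (Finset.mem_insert_self _ _)
    have hDle : D ≤ gam J i := sup_le (gam_succ_le J i)
      ((Subgroup.closure_le _).2 (fun t ht => hS t (Finset.mem_insert_of_mem ht)))
    have hc : ∀ b ∈ D, s * b * s⁻¹ ∈ D := by
      intro b hb
      have e : s * b * s⁻¹ = ⁅s, b⁆ * b := by rw [commutatorElement_def]; group
      rw [e]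
      exact D.mul_mem ((le_sup_left : gam J (i + 1) ≤ D)
        (comm_mem_gam hsg (gam_le J i (hDle hb)))) hb
    have hc' : ∀ b ∈ D, s⁻¹ * b * s ∈ D := by
      intro b hb
      have e : s⁻¹ * b * s = ⁅s⁻¹, b⁆ * b := by rw [commutatorElement_def]; group
      rw [e]
      exact D.mul_mem ((le_sup_left : gam J (i + 1) ≤ D)
        (comm_mem_gam ((gam J i).inv_mem hsg) (gam_le J i (hDle hb)))) hb
    have h := PP_cyclic hD hc hc'
    have e : gam J (i + 1) ⊔ Subgroup.closure ((insert s S : Finset G) : Set G) =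
        D ⊔ Subgroup.zpowers s := by
      rw [Finset.coe_insert, Set.insert_eq, Subgroup.closure_union, ← Subgroup.zpowers_eq_closure,
        hDdef, sup_assoc, sup_comm (Subgroup.zpowers s)]
    rw [e]
    exact h

lemma PP_gam {J : Subgroup G} (hJ : J.FG) {r : ℕ} (hr : gam J r = ⊥) : ∀ j ≤ r, PP (gam J (r - j)) := by
  intro j hj
  induction j with
  | zero => rw [Nat.sub_zero, hr]; exact PP_bot
  | succ j ih =>
    have h1 := ih (by omega)
    obtain ⟨S, hS, hgen⟩ := gam_fg J hJ (r - (j + 1))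
    have e : r - j = r - (j + 1) + 1 := by omega
    rw [e] at h1
    have h2 := PP_add S hS h1
    have e2 : gam J (r - (j + 1) + 1) ⊔ Subgroup.closure (S : Set G) = gam J (r - (j + 1)) := by
      apply le_antisymm
      · exact sup_le (gam_succ_le J _) ((Subgroup.closure_le _).2 hS)
      · rw [sup_comm]; exact hgen
    rw [e2] at h2
    exact h2

lemma gam_map {G' : Type} [Group G'] (f : G →* G') (J : Subgroup G) (i : ℕ) :
    gam (J.map f) i = (gam J i).map f := by
  induction i with
  | zero => rfl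
  | succ i ih =>
    show ⁅gam (J.map f) i, J.map f⁆ = (⁅gam J i, J⁆ : Subgroup G).map f
    rw [ih, Subgroup.map_commutator]

end D2

open D2 in
/-- BLOCK D2 -/
theorem stmt_D2 : Stmt_D2 := by
  intro G _ hfg J N hJf hJn hN r hr H hH hNH
  have hπ : Function.Surjective (QuotientGroup.mk' N) := QuotientGroup.mk'_surjective N
  have hfgQ : Group.FG (G ⧸ N) := Group.fg_of_surjective hπ
  set J' : Subgroup (G ⧸ N) := J.map (QuotientGroup.mk' N) with hJ'
  have hn' : J'.Normal := hJn.map _ hπ
  have hf' : J'.FiniteIndex := by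
    constructor
    intro h0
    apply hJf.index_ne_zero
    have := Subgroup.index_map_dvd J hπ
    rw [← hJ', h0] at this
    exact Nat.eq_zero_of_zero_dvd this
  have hJfg : J'.FG := by
    rw [← Group.fg_iff_subgroup_fg]
    exact Subgroup.fg_of_index_ne_zero J'
  have hgam : gam J' r = ⊥ := by
    rw [hJ', gam_map, Subgroup.map_eq_bot_iff, QuotientGroup.ker_mk']
    exact hr
  have h1 : PP J' := by
    have := PP_gam hJfg hgam r le_rfl
    rwa [Nat.sub_self] at this
  obtain ⟨k₀, h2⟩ := PP_finite h1 (fun k => (H k).map (QuotientGroup.mk' N))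
    (fun a b hab => Subgroup.map_mono (hH hab))
  refine ⟨k₀, fun k hk => ?_⟩
  have h3 := h2 k hk
  have h4 : ((H (k + 1)).map (QuotientGroup.mk' N)).comap (QuotientGroup.mk' N) = H (k + 1) := by
    rw [Subgroup.comap_map_eq, QuotientGroup.ker_mk', sup_eq_left]
    exact hNH (k + 1)
  rw [← Subgroup.relIndex_comap, h4] at h3
  exact h3

end PCF
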