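import Pool.Agent.Work.MP_80ff4e_al.Interface

/-!
Block L.
-/

set_option autoImplicit false

open Polynomial

namespace PCF

namespace LD

lemma sub_C_ne_zero {p : ℂ[X]} (hp : 1 ≤ p.natDegree) (z : ℂ) : p - C z ≠ 0 := by
  intro h
  have := congrArg natDegree h
  rw [natDegree_sub_C, natDegree_zero] at this
  omega

lemma mem_fibre {p : ℂ[X]} (hp : 1 ≤ p.natDegree) (z u : ℂ) : u ∈ fibre p z ↔ p.eval u = z := by
  unfold fibre
  rw [Multiset.mem_toFinset, mem_roots (sub_C_ne_zero hp z), IsRoot.def, eval_sub, eval_C, sub_eq_zero]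

lemma ldeg_pos {p : ℂ[X]} (hp : 1 ≤ p.natDegree) (u : ℂ) : 1 ≤ ldeg p u := by
  unfold ldeg
  rw [Nat.one_le_iff_ne_zero, ← Nat.pos_iff_ne_zero, rootMultiplicity_pos (sub_C_ne_zero hp _)]
  simp

lemma sum_ldeg {p : ℂ[X]} (hp : 1 ≤ p.natDegree) (z : ℂ) : ∑ u ∈ fibre p z, ldeg p u = p.natDegree := by
  have h1 : ∀ u ∈ fibre p z, ldeg p u = (p - C z).roots.count u := by
    intro u hu
    rw [mem_fibre hp] at hu
    unfold ldeg
    rw [hu, count_roots]
  rw [Finset.sum_congr rfl h1]
  unfold fibre
  rw [Multiset.toFinset_sum_count_eq, IsAlgClosed.card_roots_eq_natDegree, natDegree_sub_C]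

lemma deriv_mult (p : ℂ[X]) (u : ℂ) :
    p.derivative.rootMultiplicity u = ldeg p u - 1 := by
  unfold ldeg
  have h : (p - C (p.eval u)).IsRoot u := by simp
  have := derivative_rootMultiplicity_of_root h
  rw [← this, derivative_sub, derivative_C, sub_zero]

lemma ldeg_comp {p q : ℂ[X]} (hp : 1 ≤ p.natDegree) (hq : 1 ≤ q.natDegree) (u : ℂ) :
    ldeg (p.comp q) u = ldeg p (q.eval u) * ldeg q u := by
  set v := q.eval u with hv
  obtain ⟨r, hr1, hr2⟩ := exists_eq_pow_rootMultiplicity_mul_and_not_dvd (p - C (p.eval v))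
    (sub_C_ne_zero hp _) v
  obtain ⟨s, hs1, hs2⟩ := exists_eq_pow_rootMultiplicity_mul_and_not_dvd (q - C v)
    (sub_C_ne_zero hq _) u
  change p - C (p.eval v) = (X - C v) ^ (ldeg p v) * r at hr1
  have hm : (q - C v).rootMultiplicity u = ldeg q u := by unfold ldeg; rw [← hv]
  rw [hm] at hs1
  have hrv : r.eval v ≠ 0 := by
    intro h
    exact hr2 (dvd_iff_isRoot.2 h)
  have hsu : s.eval u ≠ 0 := by
    intro h
    exact hs2 (dvd_iff_isRoot.2 h)
  have e1 : p.comp q - C ((p.comp q).eval u) = (X - C u) ^ (ldeg p v * ldeg q u) *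
      (s ^ (ldeg p v) * r.comp q) := by
    have e2 : p.comp q - C ((p.comp q).eval u) = (p - C (p.eval v)).comp q := by
      rw [sub_comp, C_comp, eval_comp, hv]
    rw [e2, hr1, mul_comp, pow_comp, sub_comp, X_comp, C_comp, hs1, mul_pow, ← pow_mul,
      mul_comm (ldeg q u), mul_assoc]
  have hne : s ^ (ldeg p v) * r.comp q ≠ 0 := by
    intro h
    have := congrArg (eval u) h
    rw [eval_mul, eval_pow, eval_comp, eval_zero, ← hv] at this
    exact (mul_ne_zero (pow_ne_zero _ hsu) hrv) this
  have hroot : ¬ (s ^ (ldeg p v) * r.comp q).IsRoot u := by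
    rw [IsRoot.def, eval_mul, eval_pow, eval_comp, ← hv]
    exact mul_ne_zero (pow_ne_zero _ hsu) hrv
  conv_lhs => unfold ldeg
  rw [e1, rootMultiplicity_mul (mul_ne_zero (pow_ne_zero _ (X_sub_C_ne_zero u)) hne),
    rootMultiplicity_X_sub_C_pow, rootMultiplicity_eq_zero hroot, add_zero]

end LD

open LD in
/-- BLOCK L -/
theorem stmt_L : Stmt_L := by
  refine ⟨?_, ?_, ?_, fun p hp z u => mem_fibre hp z u, fun p hp z => sum_ldeg hp z,
    fun p hp u => ldeg_pos hp u, ?_, fun p q hp hq u => ldeg_comp hp hq u, ?_⟩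
  · intro f n z
    unfold itp it
    induction n with
    | zero => simp
    | succ n ih => rw [Function.iterate_succ_apply', Function.iterate_succ_apply', eval_comp, ih]
  · intro f n
    unfold itp
    induction n with
    | zero => simp
    | succ n ih => rw [Function.iterate_succ_apply', natDegree_comp, ih, pow_succ']
  · intro f m n
    unfold itp
    induction m with
    | zero => simp
    | succ m ih =>
      rw [Nat.succ_add, Function.iterate_succ_apply', Function.iterate_succ_apply', ih, comp_assoc]
  · intro p hp u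
    unfold ldeg
    have := one_lt_rootMultiplicity_iff_isRoot (sub_C_ne_zero hp (p.eval u)) (t := u)
    rw [show 2 ≤ rootMultiplicity u (p - C (eval u p)) ↔
      1 < rootMultiplicity u (p - C (eval u p)) from Iff.rfl, this]
    simp
  · intro p hp S hS
    have hle : ∀ z, (fibre p z).card ≤ p.natDegree := by
      intro z
      rw [← sum_ldeg hp z, Finset.card_eq_sum_ones]
      exact Finset.sum_le_sum fun u _ => ldeg_pos hp u
    have h1 : ∀ z, p.natDegree - (fibre p z).card = ∑ u ∈ fibre p z, p.derivative.rootMultiplicity u := by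
      intro z
      rw [Nat.sub_eq_iff_eq_add (hle z), Finset.card_eq_sum_ones, ← Finset.sum_add_distrib]
      conv_lhs => rw [← sum_ldeg hp z]
      apply Finset.sum_congr rfl
      intro u _
      rw [deriv_mult p, Nat.sub_add_cancel (ldeg_pos hp u)]
    rw [Finset.sum_congr rfl fun z _ => h1 z, ← Finset.sum_biUnion]
    · have hd : p.derivative.natDegree = p.natDegree - 1 := natDegree_derivative p
      have h2 : ∑ u ∈ S.biUnion (fun z => fibre p z), p.derivative.rootMultiplicity u =
          ∑ u ∈ p.derivative.roots.toFinset, p.derivative.roots.count u := by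
        symm
        apply Finset.sum_subset_zero_on_sdiff
        · intro u hu
          rw [Multiset.mem_toFinset, mem_roots'] at hu
          rw [Finset.mem_biUnion]
          exact ⟨p.eval u, hS u hu.2, (mem_fibre hp _ _).2 rfl⟩
        · intro u hu
          rw [Finset.mem_sdiff, Multiset.mem_toFinset] at hu
          rw [← count_roots]
          exact Multiset.count_eq_zero_of_notMem hu.2
        · intro u _
          rw [count_roots]
      rw [h2, Multiset.toFinset_sum_count_eq, IsAlgClosed.card_roots_eq_natDegree, hd]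
      omega
    · intro z _ w _ hzw
      rw [Function.onFun, Finset.disjoint_left]
      intro u hu hu'
      rw [mem_fibre hp] at hu hu'
      exact hzw (hu.symm.trans hu')

end PCF
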