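import Pool.Agent.Work.MP_80ff4e_al.Interface

/-!
Blocks D1, D3, D4.
-/

set_option autoImplicit false

namespace PCF

/-- BLOCK D4 -/
theorem stmt_D4 : Stmt_D4 := by
  intro A _ B φ
  obtain ⟨h, hh⟩ := (Module.Baer.of_divisible ℚ).extension_property_addMonoidHom B.subtype
    B.subtype_injective φ
  exact ⟨h, fun b => DFunLike.congr_fun hh b⟩

/-- BLOCK D3 -/
theorem stmt_D3 : Stmt_D3 := by
  intro A _ _ a ha
  by_contra hcon
  push Not at hcon
  have hinj : Function.Injective (zmultiplesHom A a) := by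
    intro m n hmn
    simp only [zmultiplesHom_apply] at hmn
    by_contra hne
    have h0 : (m - n) • a = 0 := by rw [sub_zsmul, hmn]; exact add_neg_cancel _
    rcases lt_trichotomy (m - n) 0 with h | h | h
    · apply hcon (n - m).toNat (by omega)
      rw [← natCast_zsmul, Int.toNat_of_nonneg (by omega), ← neg_sub m n, neg_zsmul, h0, neg_zero]
    · omega
    · apply hcon (m - n).toNat (by omega)
      rw [← natCast_zsmul, Int.toNat_of_nonneg (by omega), h0]
  obtain ⟨h, hh⟩ := (Module.Baer.of_divisible ℚ).extension_property_addMonoidHom (zmultiplesHom A a)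
    hinj (Int.castAddHom ℚ)
  have h1 := DFunLike.congr_fun hh 1
  simp [ha h] at h1

section Dietzmann

variable {Q : Type*} [Group Q]

open Classical in
/-- move one occurrence of `s` to the front -/
lemma move_front {S : Set Q} (hS : ∀ x ∈ S, ∀ s ∈ S, s⁻¹ * x * s ∈ S) {s : Q} (hs : s ∈ S) :
    ∀ l : List Q, (∀ x ∈ l, x ∈ S) → s ∈ l → ∃ l' : List Q, (∀ x ∈ l', x ∈ S) ∧
      l.prod = s * l'.prod ∧ l.length = l'.length + 1 ∧ l.count s = l'.count s + 1
  | [], _, h => absurd h (by simp)
  | x :: t, hl, h => by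
    by_cases hx : x = s
    · subst hx
      exact ⟨t, fun y hy => hl y (by simp [hy]), by simp, by simp, by simp⟩
    · have ht : s ∈ t := by
        rcases List.mem_cons.1 h with h | h
        · exact absurd h.symm hx
        · exact h
      obtain ⟨t', h1, h2, h3, h4⟩ := move_front hS hs t (fun y hy => hl y (by simp [hy])) ht
      refine ⟨(s⁻¹ * x * s) :: t', ?_, ?_, ?_, ?_⟩
      · intro y hy
        rcases List.mem_cons.1 hy with hy | hy
        · rw [hy]; exact hS x (hl x (by simp)) s hs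
        · exact h1 y hy
      · rw [List.prod_cons, List.prod_cons, h2]; group
      · simp [h3]
      · have hne : s⁻¹ * x * s ≠ s := by
          intro h
          apply hx
          have h5 : s * (s⁻¹ * x * s) * s⁻¹ = s * s * s⁻¹ := by rw [h]
          simpa [mul_assoc] using h5
        rw [List.count_cons_of_ne (fun h => hx h), List.count_cons_of_ne (fun h => hne h), h4]

open Classical in
lemma move_pow {S : Set Q} (hS : ∀ x ∈ S, ∀ s ∈ S, s⁻¹ * x * s ∈ S) {s : Q} (hs : s ∈ S) (k : ℕ) :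
    ∀ l : List Q, (∀ x ∈ l, x ∈ S) → k ≤ l.count s → ∃ l' : List Q, (∀ x ∈ l', x ∈ S) ∧
      l.prod = s ^ k * l'.prod ∧ l.length = l'.length + k := by
  induction k with
  | zero => exact fun l hl _ => ⟨l, hl, by simp, by simp⟩
  | succ k ih =>
    intro l hl hk
    obtain ⟨l1, a1, a2, a3, a4⟩ := move_front hS hs l hl
      (List.count_pos_iff.1 (by omega))
    obtain ⟨l2, b1, b2, b3⟩ := ih l1 a1 (by omega)
    refine ⟨l2, b1, ?_, by omega⟩
    rw [a2, b2, pow_succ', mul_assoc]

/-- Dietzmann's lemma -/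
theorem dietzmann {S : Set Q} (hfin : S.Finite) (hS : ∀ x ∈ S, ∀ s ∈ S, s⁻¹ * x * s ∈ S)
    {E : ℕ} (hE : 0 < E) (htor : ∀ s ∈ S, s ^ E = 1) (hgen : Subgroup.closure S = ⊤) :
    Finite Q := by
  classical
  -- every element is a product of a list of elements of `S`
  have h1 : ∀ g : Q, ∃ l : List Q, (∀ x ∈ l, x ∈ S) ∧ l.prod = g := by
    intro g
    have hg : g ∈ Subgroup.closure S := by rw [hgen]; trivial
    induction hg using Subgroup.closure_induction with
    | mem x hx => exact ⟨[x], by simpa using hx, by simp⟩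
    | one => exact ⟨[], by simp, by simp⟩
    | mul x y _ _ hx hy =>
      obtain ⟨l, a, b⟩ := hx
      obtain ⟨l', a', b'⟩ := hy
      refine ⟨l ++ l', ?_, by rw [List.prod_append, b, b']⟩
      intro z hz
      rcases List.mem_append.1 hz with h | h
      · exact a z h
      · exact a' z h
    | inv x _ hx =>
      obtain ⟨l, a, b⟩ := hx
      -- the inverse of a product of elements of finite order
      have key : ∀ l : List Q, (∀ x ∈ l, x ∈ S) → ∃ l' : List Q, (∀ x ∈ l', x ∈ S) ∧
          l'.prod = l.prod⁻¹ := by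
        intro l
        induction l with
        | nil => exact fun _ => ⟨[], by simp, by simp⟩
        | cons y t ih =>
          intro hl
          obtain ⟨t', c1, c2⟩ := ih (fun z hz => hl z (by simp [hz]))
          refine ⟨t' ++ List.replicate (E - 1) y, ?_, ?_⟩
          · intro z hz
            rcases List.mem_append.1 hz with h | h
            · exact c1 z h
            · rw [List.eq_of_mem_replicate h]; exact hl y (by simp)
          · rw [List.prod_append, c2, List.prod_replicate, List.prod_cons, mul_inv_rev]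
            congr 1
            rw [eq_inv_iff_mul_eq_one, ← pow_succ, Nat.sub_add_cancel hE]
            exact htor y (hl y (by simp))
      obtain ⟨l', c1, c2⟩ := key l a
      exact ⟨l', c1, by rw [c2, b]⟩
  -- shorten the lists
  have h2 : ∀ g : Q, ∃ l : List Q, (∀ x ∈ l, x ∈ S) ∧ l.prod = g ∧ ∀ s ∈ S, l.count s < E := by
    intro g
    have hex : ∃ n : ℕ, ∃ l : List Q, (∀ x ∈ l, x ∈ S) ∧ l.prod = g ∧ l.length = n := by
      obtain ⟨l, a, b⟩ := h1 g
      exact ⟨l.length, l, a, b, rfl⟩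
    obtain ⟨l, a, b, c⟩ := Nat.find_spec hex
    refine ⟨l, a, b, ?_⟩
    intro s hs
    by_contra hcon
    push Not at hcon
    obtain ⟨l', d1, d2, d3⟩ := move_pow hS hs E l a hcon
    rw [htor s hs, one_mul, b] at d2
    exact Nat.find_min hex (m := l'.length) (by omega) ⟨l', d1, d2.symm, rfl⟩
  have : Finite S := hfin
  have hfl : {l : List S | l.length ≤ hfin.toFinset.card * E}.Finite := List.finite_length_le S _
  have h3 : (Set.univ : Set Q) ⊆
      (fun l : List S => (l.map Subtype.val).prod) '' {l : List S | l.length ≤ hfin.toFinset.card * E} := by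
    intro g _
    obtain ⟨l, a, b, c⟩ := h2 g
    refine ⟨l.pmap (fun x hx => (⟨x, hx⟩ : S)) a, ?_, ?_⟩
    · show (l.pmap (fun x hx => (⟨x, hx⟩ : S)) a).length ≤ _
      rw [List.length_pmap, ← List.sum_toFinset_count_eq_length l]
      have : l.toFinset ⊆ hfin.toFinset := by
        intro x hx
        rw [Set.Finite.mem_toFinset]
        exact a x (List.mem_toFinset.1 hx)
      calc ∑ x ∈ l.toFinset, l.count x ≤ ∑ x ∈ l.toFinset, E :=
            Finset.sum_le_sum fun x hx => (c x (a x (List.mem_toFinset.1 hx))).le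
        _ = l.toFinset.card * E := by rw [Finset.sum_const, smul_eq_mul]
        _ ≤ _ := Nat.mul_le_mul_right _ (Finset.card_le_card this)
    · show ((l.pmap (fun x hx => (⟨x, hx⟩ : S)) a).map Subtype.val).prod = g
      rw [List.map_pmap, ← b]
      simp
  exact Set.finite_univ_iff.1 ((hfl.image _).subset h3)

end Dietzmann

/-- BLOCK D1 -/
theorem stmt_D1 : Stmt_D1 := by
  classical
  intro Γ ι _ _ K M hM hMf hconj
  set R : Subgroup Γ := ⨆ i, K i with hR
  set R' : Subgroup Γ := ⨆ i, K i ⊓ M with hR'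
  have hKR : ∀ i, K i ≤ R := fun i => le_iSup K i
  have hKR' : ∀ i, K i ⊓ M ≤ R' := fun i => le_iSup (fun i => K i ⊓ M) i
  -- `R'` is normalised by `R`
  have hnorm : ∀ g ∈ R, ∀ x ∈ R', g * x * g⁻¹ ∈ R' := by
    intro g hg x hx
    have : R' ≤ R'.comap (MulAut.conj g).toMonoidHom := by
      conv_lhs => rw [hR']
      apply iSup_le
      intro i y hy
      obtain ⟨j, hj⟩ := hconj g hg i
      rw [Subgroup.mem_comap]
      apply hKR' j
      refine ⟨?_, ?_⟩
      · rw [← hj]
        exact ⟨y, hy.1, rfl⟩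
      · exact hM.conj_mem y hy.2 g
    exact this hx
  have hN : (R'.subgroupOf R).Normal := by
    constructor
    intro n hn g
    rw [Subgroup.mem_subgroupOf] at hn ⊢
    exact hnorm g g.2 n hn
  let π : R →* R ⧸ R'.subgroupOf R := QuotientGroup.mk' _
  let S : Set (R ⧸ R'.subgroupOf R) := {q | ∃ i, ∃ x : R, (x : Γ) ∈ K i ∧ π x = q}
  have hSfin : S.Finite := by
    have : S = ⋃ i, {q | ∃ x : R, (x : Γ) ∈ K i ∧ π x = q} := by
      ext q
      simp [S]
    rw [this]
    apply Set.finite_iUnion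
    intro i
    -- factors through `Γ ⧸ M`
    have hfac : ∀ x y : {x : R // (x : Γ) ∈ K i}, ((x.1 : Γ) : Γ ⧸ M) = ((y.1 : Γ) : Γ ⧸ M) →
        π x.1 = π y.1 := by
      intro x y hxy
      rw [QuotientGroup.eq] at hxy
      show (QuotientGroup.mk x.1 : R ⧸ R'.subgroupOf R) = QuotientGroup.mk y.1
      rw [QuotientGroup.eq, Subgroup.mem_subgroupOf]
      apply hKR' i
      exact ⟨(K i).mul_mem ((K i).inv_mem x.2) y.2, hxy⟩
    have : Finite (Γ ⧸ M) := Subgroup.finite_quotient_of_finiteIndex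
    have hset : {q | ∃ x : R, (x : Γ) ∈ K i ∧ π x = q} =
        Set.range (fun x : {x : R // (x : Γ) ∈ K i} => π x.1) := by
      ext q
      constructor
      · rintro ⟨x, h1, h2⟩
        exact ⟨⟨x, h1⟩, h2⟩
      · rintro ⟨x, h⟩
        exact ⟨x.1, x.2, h⟩
    rw [hset]
    let G1 : Set (Γ ⧸ M) := Set.range (fun x : {x : R // (x : Γ) ∈ K i} => ((x.1 : Γ) : Γ ⧸ M))
    have : Finite G1 := Set.toFinite _
    let F : G1 → (R ⧸ R'.subgroupOf R) := fun c => π (Classical.choose c.2).1
    have hsub : Set.range (fun x : {x : R // (x : Γ) ∈ K i} => π x.1) ⊆ Set.range F := by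
      rintro _ ⟨x, rfl⟩
      refine ⟨⟨((x.1 : Γ) : Γ ⧸ M), ⟨x, rfl⟩⟩, ?_⟩
      apply hfac
      exact Classical.choose_spec (p := fun y : {x : R // (x : Γ) ∈ K i} =>
        ((y.1 : Γ) : Γ ⧸ M) = ((x.1 : Γ) : Γ ⧸ M)) ⟨x, rfl⟩
    exact (Set.finite_range F).subset hsub
  have hSconj : ∀ x ∈ S, ∀ s ∈ S, s⁻¹ * x * s ∈ S := by
    rintro _ ⟨i, x, hx, rfl⟩ _ ⟨j, y, hy, rfl⟩
    obtain ⟨k, hk⟩ := hconj ((y⁻¹ : R) : Γ) (y⁻¹ : R).2 i
    refine ⟨k, y⁻¹ * x * y, ?_, by simp⟩
    rw [← hk]
    exact ⟨x, hx, by simp⟩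
  have hgen : Subgroup.closure S = ⊤ := by
    rw [eq_top_iff]
    rintro q -
    obtain ⟨⟨x, hx⟩, rfl⟩ := QuotientGroup.mk_surjective q
    have : ∀ (x : Γ) (hx : x ∈ ⨆ i, K i), (π ⟨x, hx⟩) ∈ Subgroup.closure S := by
      intro x hx
      induction hx using Subgroup.iSup_induction' with
      | hp i x hx => exact Subgroup.subset_closure ⟨i, ⟨x, hKR i hx⟩, hx, rfl⟩
      | h1 => exact Subgroup.one_mem _
      | hmul x y hx hy ihx ihy =>
        have := Subgroup.mul_mem _ ihx ihy
        exact this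
    exact this x hx
  have hE : 0 < M.index := Nat.pos_of_ne_zero hMf.index_ne_zero
  have htor : ∀ s ∈ S, s ^ M.index = 1 := by
    rintro _ ⟨i, x, hx, rfl⟩
    rw [← map_pow]
    show (QuotientGroup.mk (x ^ M.index) : R ⧸ R'.subgroupOf R) = 1
    rw [QuotientGroup.eq_one_iff, Subgroup.mem_subgroupOf]
    apply hKR' i
    refine ⟨?_, ?_⟩
    · rw [SubgroupClass.coe_pow]
      exact (K i).pow_mem hx _
    · rw [SubgroupClass.coe_pow]
      exact Subgroup.pow_index_mem M _
  have := dietzmann hSfin hSconj hE htor hgen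
  show (R'.subgroupOf R).index ≠ 0
  exact (Subgroup.finiteIndex_of_finite_quotient).index_ne_zero

end PCF
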