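import Pool.Agent.Work.MP_80ff4e_al_helper82.C3a
import Pool.Agent.Work.MP_80ff4e_al_helper82.D1

/-!
Block C3, part 2.
-/

set_option autoImplicit false

open scoped commutatorElement

namespace PCF

namespace C3

open C1 C4

variable {G X : Type} [Group G] (S : SelfSim G X)

/-- `R_B` for the orbit `B` of `w` -/
def RB (N : Subgroup G) (w : List X) : Subgroup G := ⨆ v : orb S N w, S.K v.1

/-- `R_B^M` for the orbit `B` of `w` and `M = LSt |w|` -/
def RBM (N : Subgroup G) (w : List X) : Subgroup G := ⨆ v : orb S N w, (S.K v.1 ⊓ S.LSt w.length)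

lemma RB_le_StB {N : Subgroup G} (hN : N.Normal) (w : List X) : RB S N w ≤ S.StB (orb S N w) := by
  apply iSup_le
  rintro ⟨v, hv⟩ g hg
  have h1 : S.wact g v = v := ((SelfSim.mem_K S).1 hg).1
  exact mem_StB_of S hN hv (by rw [h1]; exact hv)

lemma LSt_le_StB (N : Subgroup G) (w : List X) : S.LSt w.length ≤ S.StB (orb S N w) := by
  intro g hg
  rw [SelfSim.mem_StB]
  intro v
  by_cases hv : v.length = w.length
  · rw [hg v hv]
  · constructor
    · intro h
      exact absurd (by simpa using length_of_mem_orb S h) hv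
    · intro h
      exact absurd (length_of_mem_orb S h) hv

/-- conjugation maps `K_v` to `K_{gv}` -/
lemma conj_K {g k : G} {v : List X} (hk : k ∈ S.K v) : g * k * g⁻¹ ∈ S.K (S.wact g v) := by
  rw [← S.map_conj_K]
  exact ⟨k, hk, rfl⟩

lemma conj_RBM {N : Subgroup G} (w : List X) {g : G} (hg : g ∈ S.StB (orb S N w)) :
    ∀ x ∈ RBM S N w, g * x * g⁻¹ ∈ RBM S N w := by
  intro x hx
  have : RBM S N w ≤ (RBM S N w).comap (MulAut.conj g).toMonoidHom := by
    conv_lhs => unfold RBM
    apply iSup_le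
    rintro ⟨v, hv⟩ k ⟨hk1, hk2⟩
    rw [Subgroup.mem_comap]
    have h1 : S.wact g v ∈ orb S N w := ((SelfSim.mem_StB S).1 hg v).2 hv
    apply (le_iSup (fun v : orb S N w => (S.K v.1 ⊓ S.LSt w.length)) ⟨S.wact g v, h1⟩)
    exact ⟨conj_K S hk1, (S.LSt_normal _).conj_mem k hk2 g⟩
  exact this hx

lemma comm_RB {N : Subgroup G} (hN : N.Normal) (w : List X) :
    ⁅RB S N w, S.LSt w.length⁆ ≤ RBM S N w := by
  rw [Subgroup.commutator_le]
  intro x hx m hm
  have hMn := S.LSt_normal w.length
  unfold RB at hx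
  induction hx using Subgroup.iSup_induction' with
  | hp v k hk =>
    obtain ⟨v, hv⟩ := v
    apply (le_iSup (fun v : orb S N w => (S.K v.1 ⊓ S.LSt w.length)) ⟨v, hv⟩)
    refine ⟨?_, ?_⟩
    · have h1 := conj_K S (g := m) ((S.K v).inv_mem hk)
      rw [hm v (length_of_mem_orb S hv)] at h1
      have h2 : ⁅k, m⁆ = k * (m * k⁻¹ * m⁻¹) := by rw [commutatorElement_def]; group
      rw [h2]
      exact (S.K v).mul_mem hk h1
    · rw [commutatorElement_def]
      exact (S.LSt w.length).mul_mem (hMn.conj_mem m hm k) ((S.LSt w.length).inv_mem hm)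
  | h1 => rw [commutatorElement_one_left]; exact Subgroup.one_mem _
  | hmul x y hx hy ihx ihy =>
    have e : ⁅x * y, m⁆ = (x * ⁅y, m⁆ * x⁻¹) * ⁅x, m⁆ := by
      simp only [commutatorElement_def]; group
    rw [e]
    exact Subgroup.mul_mem _ (conj_RBM S w (RB_le_StB S hN w hx) _ ihy) ihx

/-- modulo `N` all factors of `R_B^M` agree -/
lemma map_RBM {N : Subgroup G} [hN : N.Normal] (w : List X) :
    (RBM S N w).map (QuotientGroup.mk' N) ≤ (S.K w ⊓ S.LSt w.length).map (QuotientGroup.mk' N) := by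
  unfold RBM
  rw [Subgroup.map_iSup]
  apply iSup_le
  rintro ⟨v, hv⟩ _ ⟨k, ⟨hk1, hk2⟩, rfl⟩
  obtain ⟨h, hh, rfl⟩ := hv
  refine ⟨h⁻¹ * k * h, ⟨?_, ?_⟩, ?_⟩
  · have := conj_K S (g := h⁻¹) hk1
    simpa using this
  · have := (S.LSt_normal w.length).conj_mem k hk2 h⁻¹
    simpa using this
  · have h1 : QuotientGroup.mk' N h = 1 := (QuotientGroup.eq_one_iff h).2 hh
    rw [map_mul, map_mul, map_inv, h1]
    simp

lemma map_RB {N : Subgroup G} [hN : N.Normal] (w : List X) :
    (RB S N w).map (QuotientGroup.mk' N) ≤ (S.K w).map (QuotientGroup.mk' N) := by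
  unfold RB
  rw [Subgroup.map_iSup]
  apply iSup_le
  rintro ⟨v, hv⟩ _ ⟨k, hk1, rfl⟩
  obtain ⟨h, hh, rfl⟩ := hv
  refine ⟨h⁻¹ * k * h, ?_, ?_⟩
  · have := conj_K S (g := h⁻¹) hk1
    simpa using this
  · have h1 : QuotientGroup.mk' N h = 1 := (QuotientGroup.eq_one_iff h).2 hh
    rw [map_mul, map_mul, map_inv, h1]
    simp

/-- elements of the level stabiliser with trivial sections at the words of `T` -/
def ZT (n : ℕ) (T : Finset (List X)) : Subgroup G where
  carrier := {y | y ∈ S.LSt n ∧ ∀ w ∈ T, w.length = n → S.wsec y w = 1}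
  one_mem' := ⟨(S.LSt n).one_mem, fun _ _ _ => by simp⟩
  mul_mem' := by
    rintro a b ⟨ha, ha'⟩ ⟨hb, hb'⟩
    refine ⟨(S.LSt n).mul_mem ha hb, fun w hw hn => ?_⟩
    rw [S.wsec_mul_of_LSt hb hn, ha' w hw hn, hb' w hw hn, one_mul]
  inv_mem' := by
    rintro a ⟨ha, ha'⟩
    have hi := (S.LSt n).inv_mem ha
    refine ⟨hi, fun w hw hn => ?_⟩
    rw [S.wsec_inv, hi w hn, ha' w hw hn, inv_one]

lemma wsec_comm {n : ℕ} {a b : G} (ha : a ∈ S.LSt n) (hb : b ∈ S.LSt n) {w : List X}
    (hw : w.length = n) : S.wsec ⁅a, b⁆ w = ⁅S.wsec a w, S.wsec b w⁆ := by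
  have hai := (S.LSt n).inv_mem ha
  have hbi := (S.LSt n).inv_mem hb
  rw [commutatorElement_def, commutatorElement_def, S.wsec_mul_of_LSt hbi hw,
    S.wsec_mul_of_LSt hai hw, S.wsec_mul_of_LSt hb hw, S.wsec_inv, S.wsec_inv, hai w hw, hbi w hw]

/-- the nilpotency argument -/
lemma gam_le_of_map [Fintype X] [Nonempty X] (hF : S.Faithful) {N : Subgroup G} [hN : N.Normal] {n : ℕ}
    {J : Subgroup G} (hJ : ∀ w : List X, w.length = n →
      J.map (QuotientGroup.mk' N) ≤ (S.K w ⊓ S.LSt n).map (QuotientGroup.mk' N)) :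
    ∃ r, gam J r ≤ N := by
  classical
  have key : ∀ T : Finset (List X), (∀ w ∈ T, w.length = n) → ∃ r,
      (gam J r).map (QuotientGroup.mk' N) ≤ (ZT S n T).map (QuotientGroup.mk' N) := by
    intro T
    induction T using Finset.induction_on with
    | empty =>
      intro _
      obtain ⟨w, hw⟩ := SelfSim.exists_word (X := X) n
      refine ⟨0, (hJ w hw).trans (Subgroup.map_mono ?_)⟩
      rintro y ⟨_, hy⟩
      exact ⟨hy, fun u hu => absurd hu (by simp)⟩
    | insert w T hw ih =>
      intro hT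
      obtain ⟨r, hr⟩ := ih (fun u hu => hT u (Finset.mem_insert_of_mem hu))
      have hwn := hT w (Finset.mem_insert_self _ _)
      refine ⟨r + 1, ?_⟩
      show (⁅gam J r, J⁆ : Subgroup G).map (QuotientGroup.mk' N) ≤ _
      rw [Subgroup.map_commutator]
      refine (Subgroup.commutator_mono hr (hJ w hwn)).trans ?_
      rw [← Subgroup.map_commutator]
      apply Subgroup.map_mono
      rw [Subgroup.commutator_le]
      rintro a ⟨ha, ha'⟩ b ⟨hb, hb'⟩
      have hMn := S.LSt_normal n
      refine ⟨?_, ?_⟩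
      · rw [commutatorElement_def]
        exact (S.LSt n).mul_mem (hMn.conj_mem b hb' a) ((S.LSt n).inv_mem hb')
      · intro u hu hun
        rw [wsec_comm S ha hb' hun]
        rcases Finset.mem_insert.1 hu with h | h
        · rw [h, ((SelfSim.mem_K S).1 hb).2, commutatorElement_one_right]
        · rw [ha' u h hun, commutatorElement_one_left]
  obtain ⟨r, hr⟩ := key (lev X n) (fun w hw => mem_lev.1 hw)
  refine ⟨r, ?_⟩
  have hZ : ZT S n (lev X n) = ⊥ := by
    rw [Subgroup.eq_bot_iff_forall]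
    rintro y ⟨hy, hy'⟩
    exact hF.eq_one hy (fun w hw => hy' w (mem_lev.2 hw) hw)
  rw [hZ, Subgroup.map_bot, le_bot_iff, Subgroup.map_eq_bot_iff, QuotientGroup.ker_mk'] at hr
  exact hr

/-- nontrivial normal subgroups are open -/
lemma open_of_ne_bot [Fintype X] (hC : Core S) (hC2 : Stmt_C2) {N : Subgroup G} (hN : N.Normal)
    (hne : N ≠ ⊥) : S.Open N := by
  have hd : 2 ≤ Fintype.card X := hC.two_le
  have hX : Nonempty X := Fintype.card_pos_iff.1 (by omega)
  obtain ⟨τ, hτ⟩ := hC.odo
  have hTr : ∀ u v : List X, u.length = v.length → ∃ g : G, S.wact g u = v := by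
    intro u v huv
    obtain ⟨k, hk⟩ := hτ u v huv
    exact ⟨_, hk⟩
  -- derived subgroups of normal subgroups of finite index are open
  have hder : ∀ J : Subgroup G, J.Normal → J.FiniteIndex → ∀ r, S.Open (der J r) := by
    intro J hJ hJf r
    induction r with
    | zero => exact open_of_finiteIndex S hTr hJf
    | succ r ih => exact hC2 G X S hC _ (der_normal hJ r) ih
  obtain ⟨β, hβ⟩ := hC.blk
  obtain ⟨n, hn⟩ := stmt_C1 G X S hC N hN hne β
  have hn' := hn n le_rfl
  have hMn := S.LSt_normal n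
  have hMf := S.LSt_finiteIndex n
  have h1 : ∀ w : List X, w.length = n → der (S.LSt n) 2 ≤ RB S N w := by
    intro w hw
    have h2 := hβ n (orb S N w) (hw ▸ isBlk_orb S hN w) (hn' w hw)
    exact (der_mono (hw ▸ LSt_le_StB S N w) 2).trans h2
  have h2 : ∀ w : List X, w.length = n →
      (⁅der (S.LSt n) 2, S.LSt n⁆ : Subgroup G).map (QuotientGroup.mk' N) ≤
        (S.K w ⊓ S.LSt n).map (QuotientGroup.mk' N) := by
    intro w hw
    have h3 : ⁅der (S.LSt n) 2, S.LSt n⁆ ≤ RBM S N w := by
      refine (Subgroup.commutator_mono (h1 w hw) le_rfl).trans ?_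
      rw [← hw]
      exact comm_RB S hN w
    refine (Subgroup.map_mono h3).trans ?_
    rw [← hw]
    exact map_RBM S w
  obtain ⟨r, hr⟩ := gam_le_of_map S hC.faithful h2
  have h4 : der (S.LSt n) (3 + r) ≤ N := by
    rw [← der_der]
    refine le_trans ?_ hr
    refine (der_mono (?_ : der (S.LSt n) 3 ≤ ⁅der (S.LSt n) 2, S.LSt n⁆) r).trans (der_le_gam _ r)
    show ⁅der (S.LSt n) 2, der (S.LSt n) 2⁆ ≤ _
    exact Subgroup.commutator_mono le_rfl ((der_le_gam _ 2).trans (D2.gam_le _ 2))
  exact open_mono S h4 (hder _ hMn hMf _)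

/-- the subgroup generated by the `K_{wv}` contains the elements with sections in `R_j` -/
lemma secIn_le (hS : S.SelfRep) (N : Subgroup G) (n j : ℕ) (w v : List X) (hw : w.length = n)
    (hv : v.length = j) (hfull : ∀ v' : List X, v'.length = j → orb S N (w ++ v) = orb S N (w ++ v')) :
    S.secIn n (⨆ u : {u : List X // u.length = j}, S.K u.1) ≤ RB S N (w ++ v) := by
  have hKle : ∀ v' : List X, v'.length = j → S.K (w ++ v') ≤ RB S N (w ++ v) := by
    intro v' hv'
    have h1 : w ++ v' ∈ orb S N (w ++ v) := by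
      rw [hfull v' hv']
      exact self_mem_orb S N _
    exact le_iSup (fun v : orb S N (w ++ v) => S.K v.1) ⟨w ++ v', h1⟩
  -- lifting
  have hlift : ∀ g ∈ (⨆ u : {u : List X // u.length = j}, S.K u.1),
      ∃ h ∈ RB S N (w ++ v), S.wact h w = w ∧ S.wsec h w = g := by
    intro g hg
    induction hg using Subgroup.iSup_induction' with
    | hp u k hk =>
      obtain ⟨h, h1, h2⟩ := hS.word w k
      refine ⟨h, hKle u.1 u.2 ?_, h1, h2⟩
      rw [SelfSim.mem_K] at hk ⊢
      rw [S.wact_append, S.wsec_append, h1, h2, hk.1]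
      exact ⟨rfl, hk.2⟩
    | h1 => exact ⟨1, Subgroup.one_mem _, by simp, by simp⟩
    | hmul x y hx hy ihx ihy =>
      obtain ⟨a, a1, a2, a3⟩ := ihx
      obtain ⟨b, b1, b2, b3⟩ := ihy
      exact ⟨a * b, Subgroup.mul_mem _ a1 b1, by rw [S.wact_mul, b2, a2],
        by rw [S.wsec_mul, b2, a3, b3]⟩
  intro g hg
  rw [S.mem_secIn] at hg
  obtain ⟨h, h1, h2, h3⟩ := hlift (S.wsec g w) (hg.2 w hw)
  have h4 : g * h⁻¹ ∈ S.K w := by
    rw [SelfSim.mem_K]
    have h5 : S.wact h⁻¹ w = w := by
      conv_lhs => rw [← h2]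
      simp
    refine ⟨by rw [S.wact_mul, h5, hg.1 w hw], ?_⟩
    rw [S.wsec_mul, h5, S.wsec_inv, h5, h3, mul_inv_cancel]
  have h5 : g * h⁻¹ ∈ RB S N (w ++ v) := hKle v hv (S.K_le_K_append w v h4)
  have h6 := Subgroup.mul_mem _ h5 h1
  simpa using h6

end C3

open C3 C1 C4 in
/-- BLOCK C3 -/
theorem stmt_C3 (hC2 : Stmt_C2) : Stmt_C3 := by
  classical
  intro G X _ _ S hC
  have hd : 2 ≤ Fintype.card X := hC.two_le
  have hX : Nonempty X := Fintype.card_pos_iff.1 (by omega)
  obtain ⟨τ, hτ⟩ := hC.odo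
  have hTr : ∀ u v : List X, u.length = v.length → ∃ g : G, S.wact g u = v := by
    intro u v huv
    obtain ⟨k, hk⟩ := hτ u v huv
    exact ⟨_, hk⟩
  constructor
  · intro N hN hne
    have hO := open_of_ne_bot S hC hC2 hN hne
    obtain ⟨n₁, hfull⟩ := exists_full S hO
    obtain ⟨j, hj⟩ := hC.rfin
    set n := n₁ + j with hn
    have hMn := S.LSt_normal n
    have hMf := S.LSt_finiteIndex n
    -- `R_B` has finite index
    have hRB : ∀ w : List X, w.length = n → (RB S N w).FiniteIndex := by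
      intro w hw
      obtain ⟨u, v, rfl, hu, hv⟩ := SelfSim.exists_take_drop (n := n₁) (w := w) (by omega)
      have hvj : v.length = j := by
        rw [hv, hw]; omega
      have h1 := secIn_le S hC.selfrep N n₁ j u v hu hvj
        (fun v' hv' => hfull u hu v v' (by rw [hvj, hv']))
      exact @Subgroup.finiteIndex_of_le _ _ _ _ (S.secIn_finiteIndex n₁ hj) h1
    have hRBM : ∀ w : List X, w.length = n → (RBM S N w).FiniteIndex := by
      intro w hw
      have hfin : Finite (orb S N w) := orb_finite S N w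
      have h1 := stmt_D1 G (orb S N w) (fun v => S.K v.1) (S.LSt n) hMn hMf (by
        intro g hg v
        have hg' : g ∈ S.StB (orb S N w) := RB_le_StB S hN w hg
        exact ⟨⟨S.wact g v.1, ((SelfSim.mem_StB S).1 hg' v.1).2 v.2⟩, S.map_conj_K v.1 g⟩)
      constructor
      have h2 : (RBM S N w).relIndex (RB S N w) ≠ 0 := by
        unfold RBM
        rw [hw]
        exact h1
      have h3 : RBM S N w ≤ RB S N w := iSup_mono fun v => inf_le_left
      rw [← Subgroup.relIndex_mul_index h3]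
      exact mul_ne_zero h2 (hRB w hw).index_ne_zero
    constructor
    · -- first claim
      let J : Subgroup G := (⨅ w : {w : List X // w.length = n}, RBM S N w.1).normalCore
      have hJf : (⨅ w : {w : List X // w.length = n}, RBM S N w.1).FiniteIndex :=
        Subgroup.finiteIndex_iInf fun w => hRBM w.1 w.2
      refine ⟨J, inferInstance, inferInstance, ?_⟩
      apply gam_le_of_map S hC.faithful (n := n)
      intro w hw
      have h1 : J ≤ RBM S N w := (Subgroup.normalCore_le _).trans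
        (iInf_le (fun w : {w : List X // w.length = n} => RBM S N w.1) ⟨w, hw⟩)
      refine (Subgroup.map_mono h1).trans ?_
      rw [← hw]
      exact map_RBM S w
    · -- second claim
      obtain ⟨w, hw⟩ := SelfSim.exists_word (X := X) n
      have h1 : (N ⊔ S.K w).FiniteIndex := by
        have h2 : RB S N w ≤ N ⊔ S.K w := by
          have h3 := Subgroup.map_le_iff_le_comap.1 (map_RB S (N := N) w)
          rw [Subgroup.comap_map_eq, QuotientGroup.ker_mk', sup_comm] at h3
          exact h3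
        exact @Subgroup.finiteIndex_of_le _ _ _ _ (hRB w hw) h2
      have h2 : S.secSub (N ⊔ S.K w) w ≤ S.secSub N w := by
        intro h hh
        rw [SelfSim.mem_secSub] at hh ⊢
        obtain ⟨g, hg, g1, g2⟩ := hh
        rw [← SetLike.mem_coe, Subgroup.normal_mul, Set.mem_mul] at hg
        obtain ⟨a, ha, k, hk, rfl⟩ := hg
        rw [SetLike.mem_coe] at ha hk
        rw [SelfSim.mem_K] at hk
        refine ⟨a, ha, ?_, ?_⟩
        · rw [S.wact_mul, hk.1] at g1
          exact g1
        · rw [S.wsec_mul, hk.1, hk.2, mul_one] at g2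
          exact g2
      have h3 : (S.secSub N w).FiniteIndex :=
        @Subgroup.finiteIndex_of_le _ _ _ _ (hC.selfrep.secSub_finiteIndex h1 w) h2
      have h4 : (S.secSub N w).Normal := hC.selfrep.secSub_normal hN w
      obtain ⟨m, hm⟩ := hC.q1 _ h4 h3
      refine ⟨n + m, fun w' hw' => ?_⟩
      obtain ⟨u, v, rfl, hu, hv⟩ := SelfSim.exists_take_drop (n := n) (w := w') (by omega)
      rw [S.secSub_append, hC.selfrep.secSub_eq hTr hN (u := u) (v := w) (by rw [hu, hw])]
      exact hm v (by omega)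
  · intro J hJ r h0
    apply not_open_bot S hd
    have hcf : J.normalCore.FiniteIndex := inferInstance
    have hcn : J.normalCore.Normal := inferInstance
    have h1 : ∀ r, S.Open (der J.normalCore r) := by
      intro r
      induction r with
      | zero => exact open_of_finiteIndex S hTr hcf
      | succ r ih => exact hC2 G X S hC _ (der_normal hcn r) ih
    exact open_mono S ((der_mono (Subgroup.normalCore_le J) r).trans h0.le) (h1 r)

end PCF
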