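import Pool.Agent.Work.MP_80ff4e_al.Interface2
import Pool.Agent.Work.MP_80ff4e_al_helper82.D2

/-!
Block C4.
-/

set_option autoImplicit false

open scoped commutatorElement

namespace PCF

namespace C4

variable {G : Type} [Group G]

lemma gam_mono {J J' : Subgroup G} (h : J ≤ J') (r : ℕ) : gam J r ≤ gam J' r := by
  induction r with
  | zero => exact h
  | succ r ih => exact Subgroup.commutator_mono ih h

lemma der_le_gam (J : Subgroup G) (r : ℕ) : der J r ≤ gam J r := by
  induction r with
  | zero => exact le_rfl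
  | succ r ih => exact Subgroup.commutator_mono ih (ih.trans (D2.gam_le J r))

/-- a finite subgroup normalised by a subgroup of finite index is centralised by a normal
subgroup of finite index -/
lemma exists_centraliser (F J : Subgroup G) (hF : Finite F) (hJ : J.FiniteIndex)
    (h : ∀ g ∈ J, ∀ f ∈ F, g * f * g⁻¹ ∈ F) :
    ∃ J' : Subgroup G, J'.Normal ∧ J'.FiniteIndex ∧ ∀ g ∈ J', ∀ f ∈ F, g * f * g⁻¹ = f := by
  -- the action of `J` on `F`
  let φ : J →* Equiv.Perm F :=
    { toFun := fun g =>
        { toFun := fun f => ⟨g * f * g⁻¹, h g g.2 f f.2⟩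
          invFun := fun f => ⟨(g : G)⁻¹ * f * g, by
            have := h (g : G)⁻¹ (J.inv_mem g.2) f f.2
            simpa using this⟩
          left_inv := fun f => by
            apply Subtype.ext
            show (g : G)⁻¹ * ((g : G) * f * (g : G)⁻¹) * (g : G) = f
            group
          right_inv := fun f => by
            apply Subtype.ext
            show (g : G) * ((g : G)⁻¹ * f * g) * (g : G)⁻¹ = f
            group }
      map_one' := by
        ext f
        simp
      map_mul' := by
        intro a b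
        ext f
        simp [mul_assoc] }
  have hker : φ.ker.FiniteIndex := inferInstance
  let K : Subgroup G := φ.ker.map J.subtype
  have hK : K.FiniteIndex := by
    constructor
    intro h0
    have h1 : φ.ker.index * J.index = K.index := by
      have := Subgroup.index_map_subtype φ.ker
      rw [← this]
    rw [h0] at h1
    rcases Nat.mul_eq_zero.1 h1 with h2 | h2
    · exact hker.index_ne_zero h2
    · exact hJ.index_ne_zero h2
  refine ⟨K.normalCore, inferInstance, inferInstance, ?_⟩
  intro g hg f hf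
  obtain ⟨a, ha, rfl⟩ := Subgroup.normalCore_le K hg
  have h1 := congrArg (fun e : Equiv.Perm F => ((e ⟨f, hf⟩ : F) : G)) (MonoidHom.mem_ker.1 ha)
  exact h1

end C4

open C4 in
/-- BLOCK C4 -/
theorem stmt_C4 (hC3 : Stmt_C3) : Stmt_C4 := by
  intro G X _ _ S hC F J hF hJ hn
  obtain ⟨h1, h2⟩ := hC3 G X S hC
  obtain ⟨J', hJ'n, hJ'f, hcen⟩ := exists_centraliser F J hF hJ hn
  by_contra hne
  have hZn : (Subgroup.centralizer (J' : Set G)).Normal := inferInstance
  have hFZ : F ≤ Subgroup.centralizer (J' : Set G) := by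
    intro f hf
    rw [Subgroup.mem_centralizer_iff]
    intro g hg
    have := hcen g hg f hf
    rw [mul_inv_eq_iff_eq_mul] at this
    exact this
  have hZ : Subgroup.centralizer (J' : Set G) ≠ ⊥ := by
    intro h0
    apply hne
    rw [eq_bot_iff, ← h0]
    exact hFZ
  obtain ⟨⟨J0, hJ0n, hJ0f, r, hr⟩, _⟩ := h1 _ hZn hZ
  have hJ2 : (J0 ⊓ J').FiniteIndex := inferInstance
  apply h2 (J0 ⊓ J') hJ2 (r + 1)
  rw [eq_bot_iff]
  show ⁅der (J0 ⊓ J') r, der (J0 ⊓ J') r⁆ ≤ ⊥
  rw [Subgroup.commutator_le]
  intro a ha b hb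
  have ha1 : a ∈ Subgroup.centralizer (J' : Set G) :=
    hr (gam_mono inf_le_left r (der_le_gam _ r ha))
  have hb1 : b ∈ J' := ((D2.gam_le (J0 ⊓ J') r) (der_le_gam _ r hb)).2
  rw [Subgroup.mem_centralizer_iff] at ha1
  rw [Subgroup.mem_bot, commutatorElement_eq_one_iff_mul_comm]
  exact (ha1 b hb1).symm

end PCF
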