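import Pool.Agent.Work.MP_80ff4e_al.Interface4
import Pool.Agent.Work.MP_80ff4e_al_helper82.L

/-!
Block RD.
-/

set_option autoImplicit false

open Polynomial

namespace PCF

namespace RDp

theorem comp_cancel {A B G : ℂ[X]} (hG : 1 ≤ G.natDegree) (h : A.comp G = B.comp G) : A = B := by
  have h1 : (A - B).comp G = 0 := by rw [sub_comp, h, sub_self]
  rw [comp_eq_zero_iff] at h1
  rcases h1 with h1 | ⟨-, h1⟩
  · exact sub_eq_zero.1 h1
  · rw [h1, natDegree_C] at hG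
    omega

theorem it_add (f : ℂ[X]) (m n : ℕ) (z : ℂ) : it f (m + n) z = it f m (it f n z) := by
  unfold it
  rw [Function.iterate_add_apply]

/-- arithmetic of the degrees -/
theorem arith {p e d m E δ j : ℕ} (hp : p.Prime) (he : e ≠ 0) (hd : d ≠ 0)
    (hE : E = padicValNat p e) (hδ : δ = padicValNat p d) (hδ1 : 1 ≤ δ) (hj : j = E / δ)
    (hdiv : p * e ∣ d ^ m) :
    j < m ∧ Nat.lcm (p * e) (d ^ j) = p * Nat.lcm e (d ^ j) ∧
    (∀ v, Nat.lcm e (d ^ j) = v * e → ¬ p ∣ v) ∧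
    (∀ v, Nat.lcm e (d ^ j) = v * d ^ j → padicValNat p v < δ) := by
  haveI : Fact p.Prime := ⟨hp⟩
  have hjE : j * δ ≤ E := by rw [hj]; exact Nat.div_mul_le_self E δ
  have hjE2 : E < (j + 1) * δ := by
    rw [hj]
    exact (Nat.div_lt_iff_lt_mul hδ1).1 (Nat.lt_succ_self _)
  obtain ⟨d0, hd0⟩ : p ^ δ ∣ d := by
    rw [hδ]
    exact pow_padicValNat_dvd
  have hpd0 : ¬ p ∣ d0 := by
    intro h
    have h1 : p ^ (δ + 1) ∣ d := by
      rw [hd0, pow_succ]
      exact Nat.mul_dvd_mul_left _ h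
    rw [padicValNat_dvd_iff_le hd] at h1
    omega
  obtain ⟨e1, he1⟩ : p ^ (j * δ) ∣ e := by
    rw [padicValNat_dvd_iff_le he]
    omega
  have hD : d ^ j = p ^ (j * δ) * d0 ^ j := by
    rw [hd0, mul_pow, ← pow_mul, Nat.mul_comm δ j]
  have hpD : ¬ p ∣ d0 ^ j := fun h => hpd0 (hp.dvd_of_dvd_pow h)
  have hcop : Nat.Coprime p (d0 ^ j) := (Nat.Prime.coprime_iff_not_dvd hp).2 hpD
  have hpp : 0 < p ^ (j * δ) := pow_pos hp.pos _
  have he10 : e1 ≠ 0 := by
    rintro rfl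
    simp at he1
    exact he he1
  have hd00 : d0 ^ j ≠ 0 := by
    intro h
    rw [h, mul_zero] at hD
    exact (pow_ne_zero j hd) hD
  have hv1 : padicValNat p e1 < δ := by
    have h1 : padicValNat p e = j * δ + padicValNat p e1 := by
      rw [he1, padicValNat.mul (by positivity) he10, padicValNat.prime_pow]
    rw [Nat.succ_mul] at hjE2
    omega
  have hl : Nat.lcm e (d ^ j) = p ^ (j * δ) * Nat.lcm e1 (d0 ^ j) := by
    rw [hD, he1, Nat.lcm_mul_left]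
  have hg : Nat.gcd e1 (d0 ^ j) * Nat.lcm e1 (d0 ^ j) = e1 * d0 ^ j := Nat.gcd_mul_lcm _ _
  have hgpos : 0 < Nat.gcd e1 (d0 ^ j) := Nat.gcd_pos_of_pos_left _ (Nat.pos_of_ne_zero he10)
  refine ⟨?_, ?_, ?_, ?_⟩
  · have h1 : p ^ (E + 1) ∣ d ^ m := by
      refine dvd_trans ?_ hdiv
      rw [pow_succ, Nat.mul_comm]
      refine Nat.mul_dvd_mul_left _ ?_
      rw [hE]
      exact pow_padicValNat_dvd
    rw [padicValNat_dvd_iff_le (pow_ne_zero m hd), padicValNat.pow, ← hδ] at h1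
    by_contra hlt
    have h2 : m * δ ≤ j * δ := Nat.mul_le_mul_right _ (not_lt.1 hlt)
    omega
  · rw [hl, hD, he1, show p * (p ^ (j * δ) * e1) = p ^ (j * δ) * (p * e1) by ring,
      Nat.lcm_mul_left]
    have h1 : Nat.gcd (p * e1) (d0 ^ j) = Nat.gcd e1 (d0 ^ j) :=
      Nat.Coprime.gcd_mul_left_cancel _ hcop
    have h2 : Nat.gcd (p * e1) (d0 ^ j) * Nat.lcm (p * e1) (d0 ^ j) = p * e1 * d0 ^ j :=
      Nat.gcd_mul_lcm _ _
    rw [h1] at h2
    have h3 : Nat.lcm (p * e1) (d0 ^ j) = p * Nat.lcm e1 (d0 ^ j) := by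
      apply Nat.eq_of_mul_eq_mul_left hgpos
      rw [h2, Nat.mul_left_comm, hg]
      ring
    rw [h3]
    ring
  · intro v hv hpv
    have h1 : Nat.lcm e1 (d0 ^ j) = v * e1 := by
      apply Nat.eq_of_mul_eq_mul_left hpp
      rw [← hl, hv, he1]
      ring
    rw [h1] at hg
    have h2 : Nat.gcd e1 (d0 ^ j) * v = d0 ^ j := by
      apply Nat.eq_of_mul_eq_mul_left (Nat.pos_of_ne_zero he10)
      rw [← hg]
      ring
    exact hpD (h2 ▸ Dvd.dvd.mul_left hpv _)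
  · intro v hv
    have h1 : Nat.lcm e1 (d0 ^ j) = v * d0 ^ j := by
      apply Nat.eq_of_mul_eq_mul_left hpp
      rw [← hl, hv, hD]
      ring
    rw [h1] at hg
    have h2 : Nat.gcd e1 (d0 ^ j) * v = e1 := by
      apply Nat.eq_of_mul_eq_mul_left (Nat.pos_of_ne_zero hd00)
      rw [Nat.mul_comm (d0 ^ j) e1, ← hg]
      ring
    have hv0 : v ≠ 0 := by
      rintro rfl
      rw [mul_zero] at h2
      exact he10 h2.symm
    have h3 : padicValNat p e1 = padicValNat p (Nat.gcd e1 (d0 ^ j)) + padicValNat p v := by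
      conv_lhs => rw [← h2]
      rw [padicValNat.mul hgpos.ne' hv0]
    omega

end RDp

open RDp in
/-- RD -/
theorem stmt_RD (hRL : Stmt_RL) (hMV : Stmt_MV) : Stmt_RD := by
  obtain ⟨L1, L2, L3, -⟩ := stmt_L
  rintro f P hf p m h y hp ⟨⟨a, ha⟩, hy, r, hr1, hr⟩
  have hd2 := hf.deg
  -- degrees
  have hdeg : f.natDegree ^ m = a.natDegree * (p * h.natDegree) := by
    rw [← L2, ha, natDegree_comp, natDegree_pow]
  have hd0 : f.natDegree ≠ 0 := by omega
  have he0 : h.natDegree ≠ 0 := by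
    intro h0
    rw [h0, mul_zero, mul_zero] at hdeg
    exact pow_ne_zero m hd0 hdeg
  have hdiv : p * h.natDegree ∣ f.natDegree ^ m := ⟨a.natDegree, by rw [hdeg]; ring⟩
  haveI : Fact p.Prime := ⟨hp⟩
  have hpd : p ∣ f.natDegree :=
    hp.dvd_of_dvd_pow ((Dvd.intro _ rfl : p ∣ p * h.natDegree).trans hdiv)
  have hδ1 : 1 ≤ padicValNat p f.natDegree := one_le_padicValNat_of_dvd hd0 hpd
  obtain ⟨j, hj⟩ : ∃ j, j = padicValNat p h.natDegree / padicValNat p f.natDegree := ⟨_, rfl⟩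
  obtain ⟨hjm, hlcm, hV1, hV2⟩ := arith hp he0 hd0 rfl rfl hδ1 hj hdiv
  have hfm : itp f m = (itp f (m - j)).comp (itp f j) := by
    rw [← L3]
    congr 1
    omega
  have hfj : 1 ≤ (itp f j).natDegree := by
    rw [L2]
    exact Nat.one_le_pow _ _ (by omega)
  have hah : itp f m = (a.comp (X ^ p)).comp h := by
    rw [ha, comp_assoc, pow_comp, X_comp]
  obtain ⟨-, ⟨L, V₁, V₂, W, hLV1, hLV2, hW, hLdeg⟩, -⟩ := hRL f P hf m _ _ _ _ hah hfm
  obtain ⟨-, ⟨L', V₁', V₂', W', hLV1', hLV2', hW', hLdeg'⟩, -⟩ := hRL f P hf m _ _ _ _ ha hfm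
  obtain ⟨-, -, hthird⟩ := hRL f P hf m _ _ _ _ hW hW'
  rw [L2] at hLdeg hLdeg'
  rw [natDegree_pow, hlcm] at hLdeg'
  have hLL' : L'.natDegree = p * L.natDegree := by rw [hLdeg', hLdeg]
  obtain ⟨B, hB⟩ := hthird (by rw [hLL']; exact Dvd.intro_left _ rfl)
  have hL0 : 1 ≤ L.natDegree := by
    rw [hLdeg]
    exact Nat.pos_of_ne_zero (Nat.lcm_ne_zero he0 (pow_ne_zero _ hd0))
  have hBdeg : B.natDegree = p := by
    have h1 : L'.natDegree = B.natDegree * L.natDegree := by rw [hB, natDegree_comp]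
    rw [hLL'] at h1
    exact (Nat.eq_of_mul_eq_mul_right hL0 h1).symm
  have hVp : ¬ p ∣ V₁.natDegree := by
    refine hV1 _ ?_
    rw [← hLdeg, hLV1, natDegree_comp]
  have hBV : B.comp V₁ = V₁'.comp (X ^ p) := by
    refine comp_cancel (Nat.pos_of_ne_zero he0) ?_
    rw [comp_assoc, ← hLV1, ← hB, hLV1', comp_assoc, pow_comp, X_comp]
  obtain ⟨α, β, hα, hBf⟩ := hMV.2 p V₁ V₁' B hp hBdeg hVp hBV
  have hV2' : V₂' = B.comp V₂ := by
    refine comp_cancel hfj ?_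
    rw [comp_assoc, ← hLV2, ← hB, hLV2']
  have hres : itp f (m - j) = (W'.comp (C α * X + C β)).comp ((V₂ - C (V₁.eval 0)) ^ p) := by
    refine comp_cancel hfj ?_
    rw [← hfm, hW', hLV2', hV2', hBf]
    simp only [comp_assoc]
    congr 1
    simp only [add_comp, mul_comp, C_comp, pow_comp, sub_comp, X_comp]
  refine ⟨m - j, V₂ - C (V₁.eval 0), it f j y, ⟨⟨_, hres⟩, ?_, r, hr1, ?_⟩, ?_⟩
  · have h1 : V₂.eval (it f j y) = L.eval y := by
      rw [hLV2, eval_comp, L1]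
    have h2 : L.eval y = V₁.eval 0 := by
      rw [hLV1, eval_comp, hy]
    rw [eval_sub, eval_C, h1, h2, sub_self]
  · rw [← it_add, Nat.add_comm, it_add, hr]
  · rw [natDegree_sub_C]
    refine hV2 _ ?_
    rw [← hLdeg, hLV2, natDegree_comp, L2]

end PCF
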