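import Pool.Agent.Work.MP_80ff4e_al.Interface2
import Pool.Agent.Work.MP_80ff4e_al_helper52.C0a

/-!
Block C1.
-/

set_option autoImplicit false

namespace PCF

namespace C1

variable {G X : Type} [Group G] (S : SelfSim G X)

/-- the action on words as a `MulAction` -/
@[reducible] def wordAction : MulAction G (List X) where
  smul g w := S.wact g w
  one_smul w := S.wact_one w
  mul_smul g h w := S.wact_mul g h w

/-- the odometer has period `d ^ n` on the words of length `n` -/
lemma period_eq [Fintype X] {τ : G} (hτ : ∀ u v : List X, u.length = v.length → ∃ k : ℕ, S.wact (τ ^ k) u = v)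
    (w : List X) : ∀ k : ℤ, S.wact (τ ^ k) w = w ↔ ((Fintype.card X ^ w.length : ℕ) : ℤ) ∣ k := by
  let _ := wordAction S
  have hsm : ∀ (g : G) (w : List X), g • w = S.wact g w := fun _ _ => rfl
  set p := MulAction.period τ w with hp
  have hppos : 0 < p := by
    obtain ⟨k, hk⟩ := hτ (S.wact τ w) w (by simp)
    apply MulAction.period_pos_of_fixed (Nat.succ_pos k)
    rw [pow_succ, hsm, S.wact_mul]
    exact hk
  let φ : Fin p → List.Vector X w.length := fun i => ⟨S.wact (τ ^ (i : ℕ)) w, by simp⟩
  have hφ : Function.Bijective φ := by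
    constructor
    · intro i j hij
      have h1 : S.wact (τ ^ (i : ℕ)) w = S.wact (τ ^ (j : ℕ)) w := congrArg Subtype.val hij
      have h2 : (τ ^ ((i : ℤ) - (j : ℤ))) • w = w := by
        rw [hsm, sub_eq_add_neg, add_comm, zpow_add, S.wact_mul, zpow_natCast, h1, ← S.wact_mul,
          zpow_neg, zpow_natCast, inv_mul_cancel, S.wact_one]
      rw [MulAction.zpow_smul_eq_iff_period_dvd] at h2
      obtain ⟨c, hc⟩ := h2
      rw [← hp] at hc
      have hi := i.2
      have hj := j.2
      have : c = 0 := by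
        by_contra hne
        rcases lt_or_gt_of_ne hne with h | h
        · have : (p : ℤ) * c ≤ -(p : ℤ) := by nlinarith
          omega
        · have : (p : ℤ) ≤ (p : ℤ) * c := by nlinarith
          omega
      rw [this, mul_zero] at hc
      ext
      omega
    · rintro ⟨v, hv⟩
      obtain ⟨k, hk⟩ := hτ w v hv.symm
      refine ⟨⟨k % p, Nat.mod_lt _ hppos⟩, ?_⟩
      apply Subtype.ext
      show S.wact (τ ^ (k % p)) w = v
      rw [← hk, ← hsm, ← hsm]
      exact MulAction.pow_mod_period_smul k
  have hcard : p = Fintype.card X ^ w.length := by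
    have := Fintype.card_of_bijective hφ
    rwa [Fintype.card_fin, card_vector] at this
  intro k
  rw [← hcard, ← hsm, MulAction.zpow_smul_eq_iff_period_dvd]

/-- the orbit of a word under `N` -/
def orb (N : Subgroup G) (w : List X) : Set (List X) := {v | ∃ h ∈ N, S.wact h w = v}

lemma orb_finite [Fintype X] (N : Subgroup G) (w : List X) : (orb S N w).Finite := by
  apply Set.Finite.subset (lev X w.length).finite_toSet
  rintro _ ⟨h, _, rfl⟩
  simp

lemma orb_conj {N : Subgroup G} (hN : N.Normal) (g : G) (w : List X) :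
    orb S N (S.wact g w) = S.wact g '' orb S N w := by
  ext v
  constructor
  · rintro ⟨h, hh, rfl⟩
    refine ⟨S.wact (g⁻¹ * h * g) w, ⟨g⁻¹ * h * g, ?_, rfl⟩, ?_⟩
    · have := hN.conj_mem h hh g⁻¹
      simpa using this
    · rw [← S.wact_mul, ← S.wact_mul]
      congr 1
      group
  · rintro ⟨_, ⟨h, hh, rfl⟩, rfl⟩
    refine ⟨g * h * g⁻¹, hN.conj_mem h hh g, ?_⟩
    rw [← S.wact_mul, ← S.wact_mul]
    congr 1
    group

lemma orb_take {N : Subgroup G} (w : List X) (x : X) :
    (List.take w.length) '' orb S N (w ++ [x]) = orb S N w := by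
  ext v
  constructor
  · rintro ⟨_, ⟨h, hh, rfl⟩, rfl⟩
    refine ⟨h, hh, ?_⟩
    rw [S.wact_append]
    simp
  · rintro ⟨h, hh, rfl⟩
    refine ⟨_, ⟨h, hh, rfl⟩, ?_⟩
    rw [S.wact_append]
    simp

end C1

open C1 in
/-- BLOCK C1 -/
theorem stmt_C1 : Stmt_C1 := by
  intro G X _ _ S hC N hN hNe b
  obtain ⟨τ, hτ⟩ := hC.odo
  have hd : 2 ≤ Fintype.card X := hC.two_le
  have hX : Nonempty X := Fintype.card_pos_iff.1 (by omega)
  have hTr : ∀ u v : List X, u.length = v.length → ∃ g : G, S.wact g u = v := by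
    intro u v huv
    obtain ⟨k, hk⟩ := hτ u v huv
    exact ⟨_, hk⟩
  -- the size of the orbits
  have hsize : ∀ u v : List X, u.length = v.length → (orb S N u).ncard = (orb S N v).ncard := by
    intro u v huv
    obtain ⟨g, rfl⟩ := hTr u v huv
    rw [orb_conj S hN, Set.ncard_image_of_injective _ (S.wact_injective g)]
  obtain ⟨x₀⟩ := id hX
  let f : ℕ → ℕ := fun n => (orb S N (List.replicate n x₀)).ncard
  have hf : ∀ w : List X, (orb S N w).ncard = f w.length := fun w => hsize _ _ (by simp)
  have hmono : Monotone f := by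
    apply monotone_nat_of_le_succ
    intro n
    have h1 := orb_take S (N := N) (List.replicate n x₀) x₀
    have h2 := Set.ncard_image_le (f := List.take (List.replicate n x₀).length)
      (orb_finite S N (List.replicate n x₀ ++ [x₀]))
    rw [h1] at h2
    rw [hf (List.replicate n x₀ ++ [x₀])] at h2
    simpa using h2
  by_contra hcon
  push Not at hcon
  -- `f` is bounded
  have hbd : ∀ n, f n < b := by
    intro n
    obtain ⟨m, hm, w, hw, h⟩ := hcon n
    have h' : (orb S N w).ncard < b := h
    rw [hf w, hw] at h'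
    exact (hmono hm).trans_lt h'
  -- eventually constant
  obtain ⟨n₁, hn₁⟩ : ∃ n₁, ∀ n ≥ n₁, f n = f n₁ := by
    have hbdd : BddAbove (Set.range f) := ⟨b, by rintro _ ⟨n, rfl⟩; exact (hbd n).le⟩
    obtain ⟨n₁, h1⟩ := Nat.sSup_mem (Set.range_nonempty f) hbdd
    refine ⟨n₁, fun n hn => le_antisymm ?_ (hmono hn)⟩
    rw [h1]
    exact le_csSup hbdd ⟨n, rfl⟩
  -- the orbits on the levels `n + 1 > n₁` are trivial
  have htriv : ∀ w : List X, n₁ ≤ w.length → ∀ x : X, ∀ h ∈ N, S.wact h (w ++ [x]) = w ++ [x] := by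
    intro w hw x
    set n := w.length with hn
    set w' := w ++ [x] with hw'
    have hlen : w'.length = n + 1 := by simp [hw', hn]
    have hinj : Set.InjOn (List.take n) (orb S N w') := by
      apply Set.injOn_of_ncard_image_eq _ (orb_finite S N w')
      rw [hn, orb_take, hf, hf, hlen, ← hn, hn₁ n hw, hn₁ (n + 1) (by omega)]
    have hinj' : ∀ k : ℤ, S.wact (τ ^ k) w' ∈ orb S N w' →
        ((Fintype.card X ^ n : ℕ) : ℤ) ∣ k → ((Fintype.card X ^ (n + 1) : ℕ) : ℤ) ∣ k := by
      intro k hk hdvd
      rw [hn, ← period_eq S hτ w] at hdvd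
      have h1 : S.wact (τ ^ k) w' = w' := by
        apply hinj hk ⟨1, N.one_mem, by simp⟩
        rw [hw', S.wact_append, hdvd, hn]
        simp
      rw [period_eq S hτ w', hlen] at h1
      exact h1
    -- the group of exponents
    let B : AddSubgroup ℤ :=
      { carrier := {k | S.wact (τ ^ k) w' ∈ orb S N w'}
        zero_mem' := ⟨1, N.one_mem, by simp⟩
        add_mem' := by
          rintro k l ⟨a, ha, ha'⟩ ⟨c, hc, hc'⟩
          refine ⟨(τ ^ k * c * (τ ^ k)⁻¹) * a, N.mul_mem (hN.conj_mem c hc _) ha, ?_⟩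
          rw [S.wact_mul, ha', S.wact_mul, S.wact_mul, S.wact_inv_wact, zpow_add, S.wact_mul, hc']
        neg_mem' := by
          rintro k ⟨a, ha, ha'⟩
          refine ⟨(τ ^ k)⁻¹ * a⁻¹ * τ ^ k, ?_, ?_⟩
          · have := hN.conj_mem a⁻¹ (N.inv_mem ha) (τ ^ k)⁻¹
            simpa using this
          · rw [S.wact_mul, S.wact_mul, ← ha', ← S.wact_mul a⁻¹, inv_mul_cancel, S.wact_one,
              zpow_neg] }
    have hBmem : ∀ k, k ∈ B ↔ S.wact (τ ^ k) w' ∈ orb S N w' := fun k => Iff.rfl
    set D : ℕ := Fintype.card X ^ (n + 1) with hD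
    have hDpos : 0 < D := by positivity
    have hDB : (D : ℤ) ∈ B := by
      rw [hBmem, (period_eq S hτ w' _).2 (by rw [hlen])]
      exact ⟨1, N.one_mem, by simp⟩
    have hall : ∀ k ∈ B, (D : ℤ) ∣ k := by
      intro k hk
      by_contra hnd
      -- the gcd
      have hg : ((Int.gcd D k : ℕ) : ℤ) ∈ B := by
        rw [Int.gcd_eq_gcd_ab]
        have h1 := B.zsmul_mem hDB (Int.gcdA D k)
        have h2 := B.zsmul_mem hk (Int.gcdB D k)
        have := B.add_mem h1 h2
        simpa [mul_comm] using this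
      set g := Int.gcd D k with hgdef
      have hgD : g ∣ D := by
        have := Int.gcd_dvd_left (a := (D : ℤ)) (b := k)
        exact_mod_cast this
      obtain ⟨c, hc⟩ := hgD
      have hc1 : c ≠ 1 := by
        rintro rfl
        apply hnd
        rw [mul_one] at hc
        have := Int.gcd_dvd_right (a := (D : ℤ)) (b := k)
        rw [← hgdef, ← hc] at this
        exact this
      obtain ⟨q, hq, hqc⟩ := Nat.exists_prime_and_dvd hc1
      obtain ⟨c', rfl⟩ := hqc
      have hqD : q ∣ D := ⟨g * c', by rw [hc]; ring⟩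
      have hqd : q ∣ Fintype.card X := hq.dvd_of_dvd_pow hqD
      obtain ⟨e, he⟩ := hqd
      have hk1 : ((g * c' : ℕ) : ℤ) ∈ B := by
        have := B.zsmul_mem hg c'
        push_cast
        simpa [mul_comm] using this
      have hk2 : g * c' = Fintype.card X ^ n * e := by
        have h1 : q * (g * c') = q * (Fintype.card X ^ n * e) := by
          calc q * (g * c') = D := by rw [hc]; ring
            _ = Fintype.card X ^ n * (q * e) := by rw [hD, pow_succ, ← he]
            _ = _ := by ring
        exact Nat.eq_of_mul_eq_mul_left hq.pos h1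
      have h3 := hinj' _ hk1 (by rw [hk2]; push_cast; exact Dvd.intro _ rfl)
      have h4 : D ∣ g * c' := by exact_mod_cast h3
      have h5 : q * (g * c') = D := by rw [hc]; ring
      have h6 : 0 < g * c' := by
        by_contra h0
        have : g * c' = 0 := by omega
        rw [this, mul_zero] at h5
        omega
      have h7 := Nat.le_of_dvd h6 h4
      have h8 := hq.two_le
      nlinarith
    intro h hh
    obtain ⟨k, hk⟩ := hτ w' (S.wact h w') (by simp)
    have h1 : ((k : ℕ) : ℤ) ∈ B := by
      rw [hBmem, zpow_natCast, hk]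
      exact ⟨h, hh, rfl⟩
    have h2 := hall _ h1
    have h3 := (period_eq S hτ w' (k : ℤ)).2 (by rw [hlen]; exact h2)
    rw [zpow_natCast] at h3
    rw [← hk, h3]
  -- so `N` is trivial
  apply hNe
  rw [Subgroup.eq_bot_iff_forall]
  intro h hh
  apply hC.faithful
  intro w
  have h1 := htriv (w ++ List.replicate n₁ x₀) (by simp) x₀ h hh
  have h2 := S.wact_append_left h1
  exact S.wact_append_left h2

end PCF
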