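import Pool.Agent.Work.MP_80ff4e_al_helper82.C1
import Pool.Agent.Work.MP_80ff4e_al_helper82.C4

/-!
Block C3, part 1: open subgroups and orbits.
-/

set_option autoImplicit false

open scoped commutatorElement

namespace PCF

namespace C3

open C1 C4

variable {G X : Type} [Group G] (S : SelfSim G X)

/-! ### derived series -/

lemma der_mono {J J' : Subgroup G} (h : J ≤ J') (r : ℕ) : der J r ≤ der J' r := by
  induction r with
  | zero => exact h
  | succ r ih => exact Subgroup.commutator_mono ih ih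

lemma der_der (J : Subgroup G) (a b : ℕ) : der (der J a) b = der J (a + b) := by
  induction b with
  | zero => rfl
  | succ b ih =>
    show ⁅der (der J a) b, der (der J a) b⁆ = ⁅der J (a + b), der J (a + b)⁆
    rw [ih]

lemma der_normal {J : Subgroup G} (hJ : J.Normal) (r : ℕ) : (der J r).Normal := by
  induction r with
  | zero => exact hJ
  | succ r ih =>
    have := ih
    show (⁅der J r, der J r⁆ : Subgroup G).Normal
    infer_instance

/-! ### open subgroups -/

lemma open_mono {H H' : Subgroup G} (h : H ≤ H') (hO : S.Open H) : S.Open H' := by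
  obtain ⟨b, hb⟩ := hO
  refine ⟨b, fun n => ?_⟩
  obtain ⟨T, h1, h2⟩ := hb n
  refine ⟨T, h1, fun w hw => ?_⟩
  obtain ⟨u, hu, g, hg, h3⟩ := h2 w hw
  exact ⟨u, hu, g, h hg, h3⟩

lemma open_of_finiteIndex [Nonempty X] (hT : ∀ u v : List X, u.length = v.length → ∃ g : G, S.wact g u = v)
    {H : Subgroup G} (hH : H.FiniteIndex) : S.Open H := by
  classical
  have : Finite (G ⧸ H) := Subgroup.finite_quotient_of_finiteIndex
  have := Fintype.ofFinite (G ⧸ H)
  refine ⟨Fintype.card (G ⧸ H), fun n => ?_⟩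
  obtain ⟨w₀, hw₀⟩ := SelfSim.exists_word (X := X) n
  refine ⟨Finset.univ.image (fun q : G ⧸ H => S.wact (Quotient.out q)⁻¹ w₀), ?_, ?_⟩
  · exact Finset.card_image_le
  · intro w hw
    obtain ⟨g, hg⟩ := hT w₀ w (by rw [hw₀, hw])
    refine ⟨S.wact (Quotient.out (QuotientGroup.mk g⁻¹ : G ⧸ H))⁻¹ w₀, ?_,
      g * Quotient.out (QuotientGroup.mk g⁻¹ : G ⧸ H), ?_, ?_⟩
    · rw [Finset.mem_image]
      exact ⟨_, Finset.mem_univ _, rfl⟩
    · have h1 : (QuotientGroup.mk (Quotient.out (QuotientGroup.mk g⁻¹ : G ⧸ H)) : G ⧸ H) =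
        QuotientGroup.mk g⁻¹ := Quotient.out_eq' _
      have h2 := QuotientGroup.eq.1 h1.symm
      simpa using h2
    · rw [← S.wact_mul]
      simpa using hg

lemma not_open_bot [Fintype X] (hd : 2 ≤ Fintype.card X) : ¬ S.Open (⊥ : Subgroup G) := by
  classical
  rintro ⟨b, hb⟩
  obtain ⟨T, h1, h2⟩ := hb b
  have h3 : lev X b ⊆ T := by
    intro w hw
    obtain ⟨u, hu, g, hg, h4⟩ := h2 w (mem_lev.1 hw)
    rw [Subgroup.mem_bot] at hg
    rw [hg, S.wact_one] at h4
    rwa [← h4]
  have h4 : (lev X b).card = Fintype.card X ^ b := by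
    unfold lev
    rw [Finset.card_map, Finset.card_univ, card_vector]
  have h5 := Finset.card_le_card h3
  have h6 : b < 2 ^ b := Nat.lt_two_pow_self
  have h7 : 2 ^ b ≤ Fintype.card X ^ b := Nat.pow_le_pow_left hd b
  omega

/-! ### orbits of normal subgroups -/

lemma self_mem_orb (N : Subgroup G) (w : List X) : w ∈ orb S N w := ⟨1, N.one_mem, by simp⟩

lemma length_of_mem_orb {N : Subgroup G} {w v : List X} (h : v ∈ orb S N w) : v.length = w.length := by
  obtain ⟨g, _, rfl⟩ := h
  simp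

lemma orb_eq {N : Subgroup G} {w v : List X} (h : v ∈ orb S N w) : orb S N v = orb S N w := by
  obtain ⟨g, hg, rfl⟩ := h
  ext u
  constructor
  · rintro ⟨a, ha, rfl⟩
    exact ⟨a * g, N.mul_mem ha hg, by rw [S.wact_mul]⟩
  · rintro ⟨a, ha, rfl⟩
    exact ⟨a * g⁻¹, N.mul_mem ha (N.inv_mem hg), by rw [← S.wact_mul]; simp⟩

/-- an element mapping one point of the orbit into the orbit preserves the orbit -/
lemma mem_StB_of {N : Subgroup G} (hN : N.Normal) {w u : List X} (hu : u ∈ orb S N w) {g : G}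
    (hg : S.wact g u ∈ orb S N w) : g ∈ S.StB (orb S N w) := by
  have h1 : orb S N (S.wact g u) = orb S N w := orb_eq S hg
  have h2 : orb S N u = orb S N w := orb_eq S hu
  have h3 : S.wact g '' orb S N w = orb S N w := by
    rw [← h2, ← orb_conj S hN, h1, h2]
  rw [SelfSim.mem_StB]
  intro v
  constructor
  · intro hv
    rw [← h3] at hv
    obtain ⟨v', hv', h4⟩ := hv
    rwa [← S.wact_injective g h4]
  · intro hv
    rw [← h3]
    exact ⟨v, hv, rfl⟩

lemma isBlk_orb {N : Subgroup G} (hN : N.Normal) (w : List X) : S.IsBlk w.length (orb S N w) := by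
  refine ⟨⟨w, self_mem_orb S N w⟩, fun v hv => length_of_mem_orb S hv, ?_⟩
  intro g u hu hgu v hv
  exact ((SelfSim.mem_StB S).1 (mem_StB_of S hN hu hgu) v).2 hv

/-- for an open normal subgroup the orbits are eventually full -/
lemma exists_full [Fintype X] [Nonempty X] {N : Subgroup G} (hO : S.Open N) :
    ∃ n₁ : ℕ, ∀ w : List X, w.length = n₁ → ∀ v v' : List X, v.length = v'.length →
      orb S N (w ++ v) = orb S N (w ++ v') := by
  classical
  obtain ⟨b, hb⟩ := hO
  let O : ℕ → Set (Set (List X)) := fun n => {B | ∃ w : List X, w.length = n ∧ B = orb S N w}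
  have hOfin : ∀ n, (O n).Finite := by
    intro n
    apply Set.Finite.subset ((lev X n).finite_toSet.image (orb S N))
    rintro _ ⟨w, hw, rfl⟩
    exact ⟨w, by simpa using hw, rfl⟩
  have hOb : ∀ n, (O n).ncard ≤ b := by
    intro n
    obtain ⟨T, h1, h2⟩ := hb n
    have h3 : O n ⊆ orb S N '' (T : Set (List X)) := by
      rintro _ ⟨w, hw, rfl⟩
      obtain ⟨u, hu, g, hg, h4⟩ := h2 w hw
      exact ⟨u, hu, (orb_eq S ⟨g, hg, h4⟩).symm⟩
    calc (O n).ncard ≤ (orb S N '' (T : Set (List X))).ncard :=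
          Set.ncard_le_ncard h3 (T.finite_toSet.image _)
      _ ≤ (T : Set (List X)).ncard := Set.ncard_image_le T.finite_toSet
      _ = T.card := Set.ncard_coe_finset T
      _ ≤ b := h1
  have himg : ∀ n, (fun B : Set (List X) => (List.take n) '' B) '' O (n + 1) = O n := by
    intro n
    ext B
    constructor
    · rintro ⟨_, ⟨w, hw, rfl⟩, rfl⟩
      obtain ⟨u, x, rfl⟩ : ∃ (u : List X) (x : X), w = u ++ [x] := by
        rcases List.eq_nil_or_concat w with h | ⟨u, x, h⟩
        · rw [h] at hw; simp at hw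
        · exact ⟨u, x, by simpa using h⟩
      have hu : u.length = n := by simpa using hw
      refine ⟨u, hu, ?_⟩
      dsimp only
      rw [← hu, orb_take]
    · rintro ⟨w, hw, rfl⟩
      obtain ⟨x⟩ := id ‹Nonempty X›
      refine ⟨orb S N (w ++ [x]), ⟨w ++ [x], by simp [hw], rfl⟩, ?_⟩
      dsimp only
      rw [← hw, orb_take]
  let f : ℕ → ℕ := fun n => (O n).ncard
  have hmono : Monotone f := by
    apply monotone_nat_of_le_succ
    intro n
    show (O n).ncard ≤ (O (n + 1)).ncard
    conv_lhs => rw [← himg n]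
    exact Set.ncard_image_le (hOfin _)
  obtain ⟨n₁, hn₁⟩ : ∃ n₁, ∀ n ≥ n₁, f n = f n₁ := by
    have hbdd : BddAbove (Set.range f) := ⟨b, by rintro _ ⟨n, rfl⟩; exact hOb n⟩
    obtain ⟨n₁, h1⟩ := Nat.sSup_mem (Set.range_nonempty f) hbdd
    refine ⟨n₁, fun n hn => le_antisymm ?_ (hmono hn)⟩
    rw [h1]
    exact le_csSup hbdd ⟨n, rfl⟩
  have hinj : ∀ n ≥ n₁, Set.InjOn (fun B : Set (List X) => (List.take n) '' B) (O (n + 1)) := by
    intro n hn
    apply Set.injOn_of_ncard_image_eq _ (hOfin _)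
    rw [himg]
    show f n = f (n + 1)
    rw [hn₁ n hn, hn₁ (n + 1) (by omega)]
  have hone : ∀ w : List X, n₁ ≤ w.length → ∀ x y : X, orb S N (w ++ [x]) = orb S N (w ++ [y]) := by
    intro w hw x y
    apply hinj w.length hw ⟨w ++ [x], by simp, rfl⟩ ⟨w ++ [y], by simp, rfl⟩
    show List.take w.length '' orb S N (w ++ [x]) = List.take w.length '' orb S N (w ++ [y])
    rw [orb_take, orb_take]
  refine ⟨n₁, fun w hw v => ?_⟩
  induction v using List.reverseRecOn with
  | nil =>
    intro v' hv'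
    have : v' = [] := List.eq_nil_of_length_eq_zero (by simpa using hv'.symm)
    rw [this]
  | append_singleton v x ih =>
    intro v' hv'
    obtain ⟨u, y, rfl⟩ : ∃ (u : List X) (x : X), v' = u ++ [x] := by
      rcases List.eq_nil_or_concat v' with h | ⟨u, x, h⟩
      · rw [h] at hv'; simp at hv'
      · exact ⟨u, x, by simpa using h⟩
    have huv : v.length = u.length := by simpa using hv'
    have h1 := ih u huv
    have h2 : w ++ u ∈ orb S N (w ++ v) := by
      rw [h1]
      exact self_mem_orb S N _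
    obtain ⟨g, hg, hgu⟩ := h2
    have h3 : S.wact g (w ++ v ++ [x]) = w ++ u ++ [S.act (S.wsec g (w ++ v)) x] := by
      rw [S.wact_append, hgu]
      simp
    rw [← List.append_assoc, ← List.append_assoc]
    rw [hone (w ++ u) (by simp [hw]) y (S.act (S.wsec g (w ++ v)) x), ← h3]
    exact (orb_eq S ⟨g, hg, rfl⟩).symm

end C3

end PCF
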